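import Pool.Agent.Work.MP_9d1ffa_al.Px.Df

/-! Hierarchies of actions on CAT(0) complexes over linear groups and two-dimensional Artin
groups. -/

namespace Pool.Agent.Work.MP_9d1ffa_al

open Subgroup CoxeterSystem

/-- The smallest class of groups that contains the groups that are linear over a commutative ring
modulo a central subgroup and the subgroups of finitely generated Artin groups of dimension at most
two, and that contains `G` if a subgroup of finite index is in the class, or
all finitely generated subgroups are, or `G` acts by simplicial isometries on a CAT(0) simplicial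
complex with finitely many shapes such that the point stabilisers are in the class and the
pointwise stabilisers of the sets of diameter at least `D` lie in a set `P` of subgroups in which
chains have bounded length and whose cyclic extensions inside `G` are in the class. -/
inductive Hd : (G : Type) → [Group G] → Prop
  | lin (G : Type) [Group G] (R : Type) [CommRing R] (n : ℕ) (ρ : G →* GL (Fin n) R)
      (h : ρ.ker ≤ center G) : Hd G
  | art (G : Type) [Group G] (S : Type) [Finite S] (M : CoxeterMatrix S)
      (h : ∀ s t u, s ≠ t → t ≠ u → u ≠ s → M s t ≠ 0 → M t u ≠ 0 → M u s ≠ 0 →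
        (1 / M s t + 1 / M t u + 1 / M u s : ℚ) ≤ 1)
      (φ : G →* PresentedGroup {r : FreeGroup S | ∃ s t,
        r = ((braidWord M s t).map FreeGroup.of).prod * ((braidWord M t s).map FreeGroup.of).prod⁻¹})
      (hφ : Function.Injective φ) : Hd G
  | fin (G : Type) [Group G] (H : Subgroup G) (hH : H.FiniteIndex) (h : Hd H) : Hd G
  | loc (G : Type) [Group G] (h : ∀ H : Subgroup G, H.FG → Hd H) : Hd G
  | cat (G : Type) [Group G] (V X : Type) [MetricSpace X] [Nonempty X] [MulAction G V]
      [MulAction G X] (F : Set (Finset V)) (q : V → V → ℝ) (n : ℕ) (co : X → V → ℝ)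
      (cx : Px.Cx F q n co) (iso : ∀ (g : G) (x y : X), dist (g • x) (g • y) = dist x y)
      (eqv : ∀ (g : G) x v, co (g • x) (g • v) = co x v) (P : Set (Subgroup G)) (D m : ℕ)
      (far : ∀ T : Set X, ∀ x ∈ T, ∀ y ∈ T, D ≤ dist x y → fixingSubgroup G T ∈ P)
      (ht : ∀ C ⊆ P, IsChain (· ≤ ·) C → C.encard ≤ m)
      (st : ∀ x : X, Hd (MulAction.stabilizer G x))
      (ln : ∀ H ∈ P, ∀ a ∈ normalizer (H : Set G), Hd ↥(zpowers a ⊔ H)) : Hd G

end Pool.Agent.Work.MP_9d1ffa_al
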