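import Pool.Agent.Work.MP_9d1ffa_al.Gd.Cls

/-! Members of the class `Hc`: free and acylindrical actions; the hypotheses hold for an edge. -/

namespace Pool.Agent.Work.MP_9d1ffa_al.Gd

open Set Subgroup MulAction Px

variable {V X : Type} [MetricSpace X] {F : Set (Finset V)} {q : V → V → ℝ} {n : ℕ}
  {co : X → V → ℝ} {G : Type} [Group G] [MulAction G V] [MulAction G X]

theorem hc_cyc (a : G) : Hc ↥(zpowers a ⊔ ⊥) := by
  rw [sup_bot_eq]
  exact .lin _ ℤ 0 1 fun x _ => mem_center_iff.2 fun y => IsCyclic.commutative.is_comm.comm y x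

/-- acylindrical actions -/
theorem hc_acyl (cx : Cx F q n co) [Nonempty X]
    (iso : ∀ (g : G) (x y : X), dist (g • x) (g • y) = dist x y)
    (eqv : ∀ (g : G) x v, co (g • x) (g • v) = co x v) (D : ℕ)
    (acyl : ∀ (g : G) (x y : X), D ≤ dist x y → g • x = x → g • y = y → g = 1)
    (st : ∀ x : X, Hc (stabilizer G x)) : Hc G :=
  .cat G V X F q n co cx iso eqv {⊥} D 1 (fun T x hx y hy d => eq_bot_iff.2 fun g hg =>
      acyl g x y d ((mem_fixingSubgroup_iff G).1 hg x hx) ((mem_fixingSubgroup_iff G).1 hg y hy))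
    (fun C h _ => (encard_le_encard h).trans (by simp)) st
    fun H hH a _ => (show H = ⊥ from hH) ▸ hc_cyc a

/-- free actions -/
theorem hc_free (cx : Cx F q n co) [Nonempty X]
    (iso : ∀ (g : G) (x y : X), dist (g • x) (g • y) = dist x y)
    (eqv : ∀ (g : G) x v, co (g • x) (g • v) = co x v)
    (free : ∀ (g : G) (x : X), g • x = x → g = 1) : Hc G :=
  hc_acyl cx iso eqv 0 (fun g x _ _ e _ => free g x e) fun x =>
    .lin _ ℤ 0 1 fun a _ => mem_center_iff.2 fun b => by
      rw [show a = 1 from Subtype.ext (free _ x a.2), mul_one, one_mul]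

/-- the unit interval is a complex -/
theorem cx_edge : Cx (X := unitInterval) {(Finset.univ : Finset Bool)}
    (fun u v => if u = v then 0 else 1) 1 fun x v => if v then x else 1 - x := by
  have ed1 : ∀ x y : Bool → ℝ, In Finset.univ x → In Finset.univ y →
      ed (fun u v => if u = v then 0 else 1) Finset.univ x y = |x true - y true| := fun x y a b => by
    have a1 := a.2.2
    have b1 := b.2.2
    simp only [Fintype.univ_bool, Finset.mem_singleton, Bool.true_eq_false, not_false_eq_true,
      Finset.sum_insert, Finset.sum_singleton] at a1 b1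
    rw [ed, ← Real.sqrt_sq_eq_abs]
    congr 1
    simp only [Qf, Fintype.univ_bool, Finset.mem_singleton, Bool.true_eq_false, not_false_eq_true,
      Finset.sum_insert, Finset.sum_singleton, Pi.sub_apply, Bool.false_eq_true, if_true, if_false]
    have : x false - y false = -(x true - y true) := by linarith
    rw [this]
    ring
  have i1 : ∀ x : unitInterval, In Finset.univ fun v : Bool => if v then (x : ℝ) else 1 - x :=
    fun x => ⟨fun v => by cases v <;> simp [x.2.1, x.2.2], by simp, by simp⟩
  refine ⟨fun x y e => Subtype.ext (by simpa using congrFun e true), ?_, by simp,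
    (toFinite {(0 : ℝ), 1}).subset ?_, fun x y => ⟨?_, fun b hb => ?_⟩, fun x y t ht => ?_⟩
  · ext z
    refine ⟨?_, ?_⟩
    · rintro ⟨x, rfl⟩
      exact ⟨_, rfl, i1 x⟩
    · rintro ⟨s, rfl, h0, -, h1⟩
      simp only [Fintype.univ_bool, Finset.mem_singleton, Bool.true_eq_false, not_false_eq_true,
        Finset.sum_insert, Finset.sum_singleton] at h1
      refine ⟨⟨z true, h0 _, by linarith [h0 false]⟩, funext fun v => ?_⟩
      cases v <;> simp
      linarith
  · rintro _ ⟨s, -, u, -, v, -, rfl⟩
    by_cases e : u = v <;> simp [e]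
  · rintro _ ⟨m, z, s, z0, z1, h, rfl⟩
    have k : ∑ i ∈ Finset.range m, ed (fun u v => if u = v then 0 else 1) (s i) (z i) (z (i + 1)) =
        ∑ i ∈ Finset.range m, dist (z i true) (z (i + 1) true) :=
      Finset.sum_congr rfl fun i hi => by
        obtain ⟨a, b, c⟩ := h i (Finset.mem_range.1 hi)
        rw [show s i = Finset.univ from a] at b c ⊢
        exact ed1 _ _ b c
    rw [k]
    refine le_trans (le_of_eq ?_) (dist_le_range_sum_dist (fun i => z i true) m)
    rw [z0, z1]
    rfl
  · refine (hb ⟨1, fun i v => if i = 0 then (if v then (x : ℝ) else 1 - x) else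
      if v then (y : ℝ) else 1 - y, fun _ => Finset.univ, rfl, rfl, fun i hi => ?_, rfl⟩).trans ?_
    · obtain rfl : i = 0 := by omega
      exact ⟨rfl, i1 x, i1 y⟩
    · rw [Finset.sum_range_one]
      exact (ed1 _ _ (i1 x) (i1 y)).le
  · refine ⟨⟨(1 - t) * x + t * y, by nlinarith [x.2.1, y.2.1, ht.1, ht.2],
      by nlinarith [x.2.2, y.2.2, ht.1, ht.2]⟩, fun z => le_of_eq ?_⟩
    simp only [Subtype.dist_eq, Real.dist_eq, sq_abs]
    ring

end Pool.Agent.Work.MP_9d1ffa_al.Gd
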