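import Pool.Agent.Work.MP_9d1ffa_al.Gd.Top
import Pool.Agent.Work.MP_9d1ffa_al.Cu.FinL

/-! The even Wall groups of all Laurent extensions of the obstruction category of a free action
vanish for every torsion free group in the class of hierarchies of actions on CAT(0) complexes over
linear groups. -/

namespace Pool.Agent.Work.MP_9d1ffa_al.LCat

open Pool.Agent.Work.MP_9d1ffa_al

theorem result (G : Type) [Group G] (tf : ∀ g : G, IsOfFinOrder g → g = 1) (hG : Hc G) : Van G :=
  Ct.van_iff.2 (Gd.w_hc Cu.wg_wa hG tf).vk

end Pool.Agent.Work.MP_9d1ffa_al.LCat
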