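import Pool.Agent.Results.MP_9d1ffa_al.WhCat
import Pool.Agent.Work.MP_9d1ffa_al.Gd.LCat

/-! The statements `WhLinear` and `LAbs` are special cases of `WhCat` and `LCat`. -/

namespace Pool.Agent.Work.MP_9d1ffa_al.Gd

theorem old_whLinear (G : Type) [Group G] (tf : ∀ g : G, IsOfFinOrder g → g = 1) (H : Subgroup G)
    (hH : H.FiniteIndex) (R : Type) [CommRing R] (n : ℕ) (ρ : H →* GL (Fin n) R)
    (hρ : ρ.ker ≤ Subgroup.center H) (j k : ℕ)
    (A : GL (Fin k) (MonoidAlgebra ℤ (G × Multiplicative (Fin j → ℤ)))) :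
    ∃ m : ℕ, Matrix.fromBlocks A.1 0 0 1 ∈ Submonoid.closure
      {B : Matrix (Fin k ⊕ Fin m) (Fin k ⊕ Fin m)
          (MonoidAlgebra ℤ (G × Multiplicative (Fin j → ℤ))) |
        (∃ a b r, a ≠ b ∧ B = 1 + Matrix.single a b r) ∨
        ∃ (g : Fin k ⊕ Fin m → G × Multiplicative (Fin j → ℤ)) (ε : Fin k ⊕ Fin m → ℤˣ),
          B = Matrix.diagonal fun a => MonoidAlgebra.single (g a) (ε a : ℤ)} :=
  Results.MP_9d1ffa_al.WhCat.result G tf (.fin G H hH (.lin H R n ρ hρ)) j k A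

theorem old_lAbs (G : Type) [Group G] (tf : ∀ g : G, IsOfFinOrder g → g = 1) (H : Subgroup G)
    (hH : H.FiniteIndex) (R : Type) [CommRing R] (n : ℕ) (π : H →* GL (Fin n) R)
    (hπ : π.ker ≤ Subgroup.center H) : Van G :=
  LCat.result G tf (.fin G H hH (.lin H R n π hπ))

end Pool.Agent.Work.MP_9d1ffa_al.Gd
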