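import Pool.Agent.Work.MP_9d1ffa_al.Px.Df
import Pool.Agent.Work.MP_9d1ffa_al.Ar.ScC
import Pool.Agent.Work.MP_9d1ffa_al.Ar.Lc6
import Pool.Agent.Work.MP_9d1ffa_al.Ga.Zc
import Pool.Agent.Work.MP_9d1ffa_al.Cu.GI
import Pool.Agent.Work.MP_9d1ffa_al.Cu.FinK
import Pool.Agent.Work.MP_9d1ffa_al.Gd.Cld

-- merged part: Pool.Agent.Work.MP_9d1ffa_al.Gd.Cls
section
/-! Hierarchies of actions on CAT(0) complexes over linear groups. -/

namespace Pool.Agent.Work.MP_9d1ffa_al

open Subgroup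

/-- The smallest class of groups that contains the groups that are linear over a commutative ring
modulo a central subgroup, and that contains `G` if a subgroup of finite index is in the class, or
all finitely generated subgroups are, or `G` acts by simplicial isometries on a CAT(0) simplicial
complex with finitely many shapes such that the point stabilisers are in the class and the
pointwise stabilisers of the sets of diameter at least `D` lie in a set `P` of subgroups in which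
chains have bounded length and whose cyclic extensions inside `G` are in the class. -/
inductive Hc : (G : Type) → [Group G] → Prop
  | lin (G : Type) [Group G] (R : Type) [CommRing R] (n : ℕ) (ρ : G →* GL (Fin n) R)
      (h : ρ.ker ≤ center G) : Hc G
  | fin (G : Type) [Group G] (H : Subgroup G) (hH : H.FiniteIndex) (h : Hc H) : Hc G
  | loc (G : Type) [Group G] (h : ∀ H : Subgroup G, H.FG → Hc H) : Hc G
  | cat (G : Type) [Group G] (V X : Type) [MetricSpace X] [Nonempty X] [MulAction G V]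
      [MulAction G X] (F : Set (Finset V)) (q : V → V → ℝ) (n : ℕ) (co : X → V → ℝ)
      (cx : Px.Cx F q n co) (iso : ∀ (g : G) (x y : X), dist (g • x) (g • y) = dist x y)
      (eqv : ∀ (g : G) x v, co (g • x) (g • v) = co x v) (P : Set (Subgroup G)) (D m : ℕ)
      (far : ∀ T : Set X, ∀ x ∈ T, ∀ y ∈ T, D ≤ dist x y → fixingSubgroup G T ∈ P)
      (ht : ∀ C ⊆ P, IsChain (· ≤ ·) C → C.encard ≤ m)
      (st : ∀ x : X, Hc (MulAction.stabilizer G x))
      (ln : ∀ H ∈ P, ∀ a ∈ normalizer (H : Set G), Hc ↥(zpowers a ⊔ H)) : Hc G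

end Pool.Agent.Work.MP_9d1ffa_al
end

-- merged part: Pool.Agent.Work.MP_9d1ffa_al.Px.TyA
section
/-! Chains: splitting, padding, distances. -/

namespace Pool.Agent.Work.MP_9d1ffa_al.Px

open Set

variable {V X : Type} [MetricSpace X] {F : Set (Finset V)} {q : V → V → ℝ} {n : ℕ}
  {co : X → V → ℝ}

/-- `z` is a chain of `m` segments in the simplices `s` -/
def Chz (F : Set (Finset V)) (m : ℕ) (z : ℕ → V → ℝ) (s : ℕ → Finset V) : Prop :=
  ∀ i < m, s i ∈ F ∧ In (s i) (z i) ∧ In (s i) (z (i + 1))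

/-- the length of the first `k` segments -/
noncomputable def Ln (q : V → V → ℝ) (z : ℕ → V → ℝ) (s : ℕ → Finset V) (k : ℕ) : ℝ :=
  ∑ i ∈ Finset.range k, ed q (s i) (z i) (z (i + 1))

/-- convex combinations -/
def cb (x y : V → ℝ) (u : ℝ) : V → ℝ := fun v => (1 - u) * x v + u * y v

theorem TyA_one {c a : ℝ} (h0 : 0 ≤ c) (h1 : c ≤ a) : ∃ u ∈ Icc (0 : ℝ) 1, u * a = c := by
  rcases (h0.trans h1).eq_or_lt with ha | ha
  · refine ⟨0, ⟨le_rfl, zero_le_one⟩, ?_⟩
    linarith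
  · refine ⟨c / a, ⟨div_nonneg h0 ha.le, (div_le_one ha).2 h1⟩, ?_⟩
    field_simp

theorem TyA_split (l : ℕ → ℝ) (M : ℕ) {c : ℝ} (hc0 : 0 ≤ c)
    (hc1 : c ≤ ∑ k ∈ Finset.range (M + 1), l k) : ∃ i < M + 1, ∃ u ∈ Icc (0 : ℝ) 1,
      ∑ k ∈ Finset.range i, l k + u * l i = c := by
  induction M with
  | zero =>
    obtain ⟨u, hu, e⟩ := TyA_one (a := l 0) hc0 (by simpa using hc1)
    exact ⟨0, by omega, u, hu, by simpa using e⟩
  | succ M ih =>
    by_cases hc : c ≤ ∑ k ∈ Finset.range (M + 1), l k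
    · obtain ⟨i, hi, u, hu, e⟩ := ih hc
      exact ⟨i, by omega, u, hu, e⟩
    · rw [Finset.sum_range_succ] at hc1
      obtain ⟨u, hu, e⟩ := TyA_one (c := c - ∑ k ∈ Finset.range (M + 1), l k) (a := l (M + 1))
        (by linarith [not_le.1 hc]) (by linarith)
      exact ⟨M + 1, by omega, u, hu, by linarith⟩

theorem split_sum (l : ℕ → ℝ) (h0 : ∀ i, 0 ≤ l i) {M : ℕ} (hM : 0 < M) {t : ℝ}
    (ht : t ∈ Icc (0 : ℝ) 1) : ∃ i < M, ∃ u ∈ Icc (0 : ℝ) 1,
      ∑ k ∈ Finset.range i, l k + u * l i = t * ∑ k ∈ Finset.range M, l k := by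
  obtain ⟨M, rfl⟩ : ∃ N, M = N + 1 := ⟨M - 1, by omega⟩
  have hS : 0 ≤ ∑ k ∈ Finset.range (M + 1), l k := Finset.sum_nonneg fun i _ => h0 i
  refine TyA_split l M (mul_nonneg ht.1 hS) ?_
  nlinarith [ht.2]

theorem In.cb {s : Finset V} {x y : V → ℝ} (hx : In s x) (hy : In s y) {u : ℝ}
    (hu : u ∈ Icc (0 : ℝ) 1) : In s (cb x y u) := by
  refine ⟨fun v => ?_, fun v hv => ?_, ?_⟩
  · exact add_nonneg (mul_nonneg (by linarith [hu.2]) (hx.1 v)) (mul_nonneg hu.1 (hy.1 v))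
  · simp only [Px.cb, hx.2.1 v hv, hy.2.1 v hv]
    ring
  · simp only [Px.cb]
    rw [Finset.sum_add_distrib, ← Finset.mul_sum, ← Finset.mul_sum, hx.2.2, hy.2.2]
    ring

theorem TyA_Qf (q : V → V → ℝ) (s : Finset V) (w w' : V → ℝ) (u : ℝ)
    (h : ∀ v, w' v = u * w v) : Qf q s w' = u ^ 2 * Qf q s w := by
  unfold Qf
  have : ∑ a ∈ s, ∑ b ∈ s, q a b * w' a * w' b =
      u ^ 2 * ∑ a ∈ s, ∑ b ∈ s, q a b * w a * w b := by
    rw [Finset.mul_sum]
    refine Finset.sum_congr rfl fun a _ => ?_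
    rw [Finset.mul_sum]
    refine Finset.sum_congr rfl fun b _ => ?_
    rw [h a, h b]
    ring
  rw [this]
  ring

theorem TyA_ed (q : V → V → ℝ) (s : Finset V) (x y x' y' : V → ℝ) {u : ℝ} (hu : 0 ≤ u)
    (h : ∀ v, x' v - y' v = u * (x v - y v)) : ed q s x' y' = u * ed q s x y := by
  unfold ed
  rw [TyA_Qf q s (x - y) (x' - y') u h, Real.sqrt_mul (sq_nonneg u), Real.sqrt_sq hu]

theorem ed_cb_left (q : V → V → ℝ) (s : Finset V) (x y : V → ℝ) {u : ℝ}
    (hu : u ∈ Icc (0 : ℝ) 1) : ed q s x (cb x y u) = u * ed q s x y := by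
  refine TyA_ed q s x y _ _ hu.1 fun v => ?_
  simp only [cb]
  ring

theorem ed_cb_right (q : V → V → ℝ) (s : Finset V) (x y : V → ℝ) {u : ℝ}
    (hu : u ∈ Icc (0 : ℝ) 1) : ed q s (cb x y u) y = (1 - u) * ed q s x y := by
  refine TyA_ed q s x y _ _ (by linarith [hu.2]) fun v => ?_
  simp only [cb]
  ring

theorem TyA_Ln_succ (q : V → V → ℝ) (z : ℕ → V → ℝ) (s : ℕ → Finset V) (k : ℕ) :
    Ln q z s (k + 1) = Ln q z s k + ed q (s k) (z k) (z (k + 1)) := by
  unfold Ln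
  rw [Finset.sum_range_succ]

theorem Cx.le_Ln (h : Cx F q n co) {M i j : ℕ} {z : ℕ → V → ℝ} {s : ℕ → Finset V}
    (hz : Chz F M z s) (hij : i ≤ j) (hj : j ≤ M) {x y : X} (hx : co x = z i) (hy : co y = z j) :
    dist x y ≤ Ln q z s j - Ln q z s i := by
  induction j, hij using Nat.le_induction generalizing y with
  | base =>
    have : x = y := h.inj (hx.trans hy.symm)
    subst this
    simp
  | succ j hij ih =>
    obtain ⟨h1, h2, h3⟩ := hz j (by omega)
    obtain ⟨w, hw⟩ := h.exX h1 h2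
    have a1 := ih (by omega) hw
    have a2 := h.le_ed (x := w) (y := y) h1 (by rwa [hw]) (by rwa [hy])
    rw [hw, hy] at a2
    rw [TyA_Ln_succ]
    linarith [dist_triangle x w y]

theorem Cx.mid (h : Cx F q n co) {M i : ℕ} {z : ℕ → V → ℝ} {s : ℕ → Finset V}
    (hz : Chz F M z s) (hi : i < M) {u : ℝ} (hu : u ∈ Icc (0 : ℝ) 1) {x y ξ : X}
    (hx : co x = z 0) (hy : co y = z M) (hξ : co ξ = cb (z i) (z (i + 1)) u) :
    dist x ξ ≤ Ln q z s i + u * ed q (s i) (z i) (z (i + 1)) ∧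
      dist ξ y ≤ Ln q z s M - (Ln q z s i + u * ed q (s i) (z i) (z (i + 1))) := by
  obtain ⟨h1, h2, h3⟩ := hz i hi
  obtain ⟨a, ha⟩ := h.exX h1 h2
  obtain ⟨b, hb⟩ := h.exX h1 h3
  have hc : In (s i) (co ξ) := by
    rw [hξ]
    exact h2.cb h3 hu
  have a1 := h.le_Ln hz (Nat.zero_le i) hi.le hx ha
  have a2 := h.le_ed (x := a) (y := ξ) h1 (by rwa [ha]) hc
  have a3 := h.le_ed (x := ξ) (y := b) h1 hc (by rwa [hb])
  have a4 := h.le_Ln hz (Nat.succ_le_of_lt hi) le_rfl hb hy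
  rw [ha, hξ, ed_cb_left q _ _ _ hu] at a2
  rw [hb, hξ, ed_cb_right q _ _ _ hu] at a3
  have a0 : Ln q z s 0 = 0 := by simp [Ln]
  rw [Nat.succ_eq_add_one, TyA_Ln_succ] at a4
  constructor
  · linarith [dist_triangle x a ξ]
  · linarith [dist_triangle ξ b y]

theorem TyA_ed_self (q : V → V → ℝ) (s : Finset V) (y : V → ℝ) : ed q s y y = 0 := by
  rw [TyA_ed q s y y y y (u := 0) le_rfl fun v => by ring]
  ring

theorem TyA_pad {m : ℕ} {x y : V → ℝ} {l : ℝ} (h : Chn F q m x y l)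
    (hy : ∃ s ∈ F, In s y) : Chn F q (m + 1) x y l := by
  obtain ⟨z, s, h0, h1, h2, h3⟩ := h
  obtain ⟨t, ht, hy⟩ := hy
  refine ⟨fun i => if i ≤ m then z i else y, fun i => if i < m then s i else t, by simpa using h0,
    by simp, fun i hi => ?_, ?_⟩
  · by_cases him : i < m
    · simp only [if_pos him, if_pos him.le, if_pos (Nat.succ_le_of_lt him)]
      exact h2 i him
    · have : i = m := by omega
      subst this
      simp only [lt_irrefl, if_false, le_refl, if_true, if_neg (Nat.not_succ_le_self i), h1]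
      exact ⟨ht, hy, hy⟩
  · rw [Finset.sum_range_succ, ← h3]
    simp only [lt_irrefl, if_false, le_refl, if_true, if_neg (Nat.not_succ_le_self m), h1,
      TyA_ed_self, add_zero]
    refine Finset.sum_congr rfl fun i hi => ?_
    have him : i < m := Finset.mem_range.1 hi
    simp only [if_pos him, if_pos him.le, if_pos (Nat.succ_le_of_lt him)]

theorem Chn.pad {m M : ℕ} {x y : V → ℝ} {l : ℝ} (h : Chn F q m x y l) (hm : m ≤ M)
    (hy : ∃ s ∈ F, In s y) : Chn F q M x y l := by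
  induction M, hm using Nat.le_induction with
  | base => exact h
  | succ M _ ih => exact TyA_pad ih hy

/-- an enumeration of a simplex -/
theorem In.enum {s : Finset V} {x : V → ℝ} (hx : In s x) (hs : s.card ≤ n + 1) :
    ∃ e : Fin (n + 1) → V, ∀ v, v ∈ s ↔ ∃ j, e j = v := by
  classical
  have hne : s.Nonempty := by
    rcases s.eq_empty_or_nonempty with rfl | hne
    · have := hx.2.2
      simp at this
    · exact hne
  have : Nonempty s := hne.to_subtype
  obtain ⟨f⟩ : Nonempty (s ↪ Fin (n + 1)) :=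
    Function.Embedding.nonempty_of_card_le (by simpa using hs)
  refine ⟨fun j => (Function.invFun f j : s), fun v => ⟨fun hv => ⟨f ⟨v, hv⟩, ?_⟩, ?_⟩⟩
  · simp only [Function.leftInverse_invFun f.injective ⟨v, hv⟩]
  · rintro ⟨j, rfl⟩
    exact (Function.invFun f j).2

end Pool.Agent.Work.MP_9d1ffa_al.Px
end

-- merged part: Pool.Agent.Work.MP_9d1ffa_al.Px.TyB
section
/-! Transport of coordinates and samples between two enumerations with the same pattern. -/

namespace Pool.Agent.Work.MP_9d1ffa_al.Px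

open Set

variable {V I : Type} {e e' : I → V}

open Classical in
/-- transport of coordinates -/
noncomputable def tr (e e' : I → V) (x : V → ℝ) : V → ℝ :=
  fun v => if h : ∃ a, e' a = v then x (e h.choose) else 0

theorem tr_apply (pat : ∀ a b, e a = e b ↔ e' a = e' b) (x : V → ℝ) (a : I) :
    tr e e' x (e' a) = x (e a) := by
  have h : ∃ b, e' b = e' a := ⟨a, rfl⟩
  unfold tr
  rw [dif_pos h, (pat _ _).2 h.choose_spec]

theorem tr_out (x : V → ℝ) {v : V} (hv : ∀ a, e' a ≠ v) : tr e e' x v = 0 := by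
  unfold tr
  rw [dif_neg fun h => h.elim fun a k => hv a k]

theorem tr_cb (e e' : I → V) (x y : V → ℝ) (u : ℝ) :
    tr e e' (cb x y u) = cb (tr e e' x) (tr e e' y) u := by
  funext v
  unfold tr cb
  dsimp only
  split_ifs
  · rfl
  · ring

theorem TyB_nonneg (e e' : I → V) {x : V → ℝ} (hx : ∀ v, 0 ≤ x v) (v : V) :
    0 ≤ tr e e' x v := by
  unfold tr
  split_ifs
  · exact hx _
  · exact le_rfl

theorem TyB_sum (pat : ∀ a b, e a = e b ↔ e' a = e' b) {J : Type} {ι : J → I} {s s' : Finset V}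
    (hs : ∀ v, v ∈ s ↔ ∃ j, e (ι j) = v) (hs' : ∀ v, v ∈ s' ↔ ∃ j, e' (ι j) = v)
    {f g : V → ℝ} (h : ∀ j, g (e' (ι j)) = f (e (ι j))) : ∑ v ∈ s', g v = ∑ v ∈ s, f v := by
  refine Finset.sum_bij (fun v hv => e (ι ((hs' v).1 hv).choose)) ?_ ?_ ?_ ?_
  · exact fun v hv => (hs _).2 ⟨_, rfl⟩
  · intro v hv w hw k
    rw [← ((hs' v).1 hv).choose_spec, ← ((hs' w).1 hw).choose_spec]
    exact (pat _ _).1 k
  · intro v hv
    obtain ⟨j, rfl⟩ := (hs v).1 hv
    have k : e' (ι j) ∈ s' := (hs' _).2 ⟨j, rfl⟩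
    exact ⟨_, k, (pat _ _).2 ((hs' _).1 k).choose_spec⟩
  · intro v hv
    rw [← h, ((hs' v).1 hv).choose_spec]

theorem tr_In (pat : ∀ a b, e a = e b ↔ e' a = e' b) {J : Type} {ι : J → I} {s s' : Finset V}
    (hs : ∀ v, v ∈ s ↔ ∃ j, e (ι j) = v) (hs' : ∀ v, v ∈ s' ↔ ∃ j, e' (ι j) = v) {x : V → ℝ}
    (hx : In s x) : In s' (tr e e' x) := by
  refine ⟨TyB_nonneg e e' hx.1, fun v hv => ?_, ?_⟩
  · by_cases h : ∃ a, e' a = v
    · obtain ⟨a, rfl⟩ := h
      rw [tr_apply pat]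
      refine hx.2.1 _ fun k => hv ?_
      obtain ⟨j, hj⟩ := (hs _).1 k
      exact (hs' _).2 ⟨j, (pat _ _).1 hj⟩
    · exact tr_out x fun a k => h ⟨a, k⟩
  · rw [← hx.2.2]
    exact TyB_sum pat hs hs' fun j => tr_apply pat x _

theorem tr_ed (pat : ∀ a b, e a = e b ↔ e' a = e' b) {J : Type} {ι : J → I} {s s' : Finset V}
    (hs : ∀ v, v ∈ s ↔ ∃ j, e (ι j) = v) (hs' : ∀ v, v ∈ s' ↔ ∃ j, e' (ι j) = v) {q : V → V → ℝ}
    (hq : ∀ j k, q (e (ι j)) (e (ι k)) = q (e' (ι j)) (e' (ι k))) (x y : V → ℝ) :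
    ed q s' (tr e e' x) (tr e e' y) = ed q s x y := by
  have k : ∀ a, (tr e e' x - tr e e' y) (e' a) = (x - y) (e a) := fun a => by
    rw [Pi.sub_apply, Pi.sub_apply, tr_apply pat, tr_apply pat]
  unfold ed Qf
  congr 2
  refine TyB_sum pat hs hs' fun j => TyB_sum pat hs hs' fun i => ?_
  rw [k, k, hq]

/-- the transported point is close to a point with almost the same coordinates -/
theorem tr_near (pat : ∀ a b, e a = e b ↔ e' a = e' b) {J : Type} {ι : J → I} {s s' : Finset V}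
    (hs : ∀ v, v ∈ s ↔ ∃ j, e (ι j) = v) (hs' : ∀ v, v ∈ s' ↔ ∃ j, e' (ι j) = v) {x x' : V → ℝ}
    (hx : In s x) (hx' : In s' x') {a : ℝ} (h0 : 0 ≤ a)
    (ha : ∀ j, |x (e (ι j)) - x' (e' (ι j))| ≤ a) (v : V) : |tr e e' x v - x' v| ≤ a := by
  by_cases h : v ∈ s'
  · obtain ⟨j, rfl⟩ := (hs' _).1 h
    rw [tr_apply pat]
    exact ha j
  · rw [(tr_In pat hs hs' hx).2.1 v h, hx'.2.1 v h, sub_zero, abs_zero]
    exact h0

theorem TyB_zero {n : ℕ} (P : ℕ) (γ : Fin (n + 2)) {μ : ℝ} (m1 : μ ≤ 1 / (2 * ((n : ℝ) + 2))) :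
    ((-1 : ℤ) : ℝ) + off γ + μ ≤ P * (0 : ℝ) ∧ P * (0 : ℝ) + μ ≤ ((-1 : ℤ) : ℝ) + 1 + off γ := by
  have o1 := off_ge γ
  have o2 := off_le γ
  push_cast
  constructor <;> linarith

theorem tr_sm (pat : ∀ a b, e a = e b ↔ e' a = e' b) {n : ℕ} (P : ℕ) (c : Sm V n) :
    ∃ c' : Sm V n, ∀ (s : Finset V) (x : V → ℝ), In s x → (∀ v ∈ s, ∃ a, e a = v) →
      mv P c' (tr e e' x) = mv P c x := by
  classical
  have z : ∀ (s : Finset V) (x : V → ℝ), In s x → (∀ v ∈ s, ∃ a, e a = v) →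
      ∀ v, (¬ ∃ a, e a = v) → x v = 0 := fun s x hx hs v hv => hx.2.1 v fun k => hv (hs v k)
  by_cases hc : ∀ v, (¬ ∃ a, e a = v) → c.2 v = -1
  · refine ⟨(c.1, fun v => if h : ∃ a, e' a = v then c.2 (e h.choose) else -1),
      fun s x hx hs => ?_⟩
    have k : ∀ a, (if h : ∃ b, e' b = e' a then c.2 (e h.choose) else -1) = c.2 (e a) := by
      intro a
      have h : ∃ b, e' b = e' a := ⟨a, rfl⟩
      rw [dif_pos h, (pat _ _).2 h.choose_spec]
    unfold mv
    congr 1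
    ext μ
    refine and_congr_right fun m0 => and_congr_right fun m1 => ⟨fun H v => ?_, fun H v => ?_⟩
    · by_cases h : ∃ a, e a = v
      · obtain ⟨a, rfl⟩ := h
        have t := H (e' a)
        dsimp only at t
        rw [k, tr_apply pat] at t
        exact t
      · rw [hc v h, z s x hx hs v h]
        exact TyB_zero P c.1 m1
    · dsimp only
      by_cases h : ∃ a, e' a = v
      · obtain ⟨a, rfl⟩ := h
        rw [k, tr_apply pat]
        exact H (e a)
      · rw [dif_neg h, tr_out x fun a t => h ⟨a, t⟩]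
        exact TyB_zero P c.1 m1
  · obtain ⟨v, hv⟩ := not_forall.1 hc
    obtain ⟨hv, hv'⟩ := Classical.not_imp.1 hv
    refine ⟨(c.1, fun _ => -2), fun s x hx hs => ?_⟩
    have o1 := off_pos c.1
    have o2 := off_lt c.1
    have a1 : Mu P c x = ∅ := by
      refine eq_empty_of_forall_notMem fun μ H => hv' ?_
      obtain ⟨t1, t2⟩ := H.2.2 v
      have m0 := H.1
      rw [z s x hx hs v hv, mul_zero] at t1 t2
      have b1 : c.2 v < 0 := by exact_mod_cast (by linarith : (c.2 v : ℝ) < 0)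
      have b2 : -2 < c.2 v := by exact_mod_cast (by linarith : (-2 : ℝ) < c.2 v)
      omega
    have a2 : Mu P ((c.1, fun _ => -2) : Sm V n) (tr e e' x) = ∅ := by
      refine eq_empty_of_forall_notMem fun μ H => ?_
      have t := (H.2.2 v).2
      have m0 := H.1
      have m1 : 0 ≤ (P : ℝ) * tr e e' x v :=
        mul_nonneg (Nat.cast_nonneg _) (TyB_nonneg e e' hx.1 v)
      dsimp only at t
      push_cast at t
      linarith
    unfold mv
    rw [a1, a2]

end Pool.Agent.Work.MP_9d1ffa_al.Px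
end

-- merged part: Pool.Agent.Work.MP_9d1ffa_al.Px.Cat
section
/-! Geodesics in CAT(0) spaces. -/

namespace Pool.Agent.Work.MP_9d1ffa_al.Px

open Set

variable {X : Type} [MetricSpace X]

open Classical in
/-- the point at the fraction `t` of the geodesic from `x` to `y` -/
noncomputable def jn (h : Cat0 X) (x y : X) (t : ℝ) : X :=
  if ht : t ∈ Icc (0 : ℝ) 1 then (h x y t ht).choose else x

variable (h : Cat0 X) {t : ℝ}

theorem jn_cn (x y : X) (ht : t ∈ Icc (0 : ℝ) 1) (z : X) :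
    dist z (jn h x y t) ^ 2 ≤
      (1 - t) * dist z x ^ 2 + t * dist z y ^ 2 - t * (1 - t) * dist x y ^ 2 := by
  unfold jn
  rw [dif_pos ht]
  exact (h x y t ht).choose_spec z

theorem jn_left_le (x y : X) (ht : t ∈ Icc (0 : ℝ) 1) : dist x (jn h x y t) ≤ t * dist x y := by
  have a := jn_cn h x y ht x
  rw [dist_self] at a
  refine abs_le_of_sq_le_sq' (by nlinarith) (mul_nonneg ht.1 dist_nonneg) |>.2

theorem jn_right_le (x y : X) (ht : t ∈ Icc (0 : ℝ) 1) :
    dist (jn h x y t) y ≤ (1 - t) * dist x y := by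
  have a := jn_cn h x y ht y
  rw [dist_self, dist_comm y x, dist_comm y] at a
  refine abs_le_of_sq_le_sq' (by nlinarith) (mul_nonneg (by linarith [ht.2]) dist_nonneg) |>.2

theorem jn_left (x y : X) (ht : t ∈ Icc (0 : ℝ) 1) : dist x (jn h x y t) = t * dist x y := by
  linarith [jn_left_le h x y ht, jn_right_le h x y ht, dist_triangle x (jn h x y t) y]

theorem jn_right (x y : X) (ht : t ∈ Icc (0 : ℝ) 1) :
    dist (jn h x y t) y = (1 - t) * dist x y := by
  linarith [jn_left_le h x y ht, jn_right_le h x y ht, dist_triangle x (jn h x y t) y]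

/-- a point that is almost on the geodesic is close to it -/
theorem jn_near {x y z : X} {e : ℝ} (ht : t ∈ Icc (0 : ℝ) 1) (he : 0 ≤ e)
    (h1 : dist x z ≤ t * dist x y + e) (h2 : dist z y ≤ (1 - t) * dist x y + e) :
    dist z (jn h x y t) ^ 2 ≤ e * dist x y + e ^ 2 := by
  have a := jn_cn h x y ht z
  have t0 := ht.1
  have t1 : 0 ≤ 1 - t := by linarith [ht.2]
  have d0 : 0 ≤ dist x y := dist_nonneg
  rw [dist_comm z x] at a
  have b1 := mul_le_mul_of_nonneg_left (pow_le_pow_left₀ dist_nonneg h1 2) t1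
  have b2 := mul_le_mul_of_nonneg_left (pow_le_pow_left₀ dist_nonneg h2 2) t0
  have b3 : 0 ≤ (1 - 2 * t) ^ 2 * (e * dist x y) := by positivity
  nlinarith

theorem jn_uniq {x y z : X} (ht : t ∈ Icc (0 : ℝ) 1) (h1 : dist x z ≤ t * dist x y)
    (h2 : dist z y ≤ (1 - t) * dist x y) : z = jn h x y t := by
  have a := jn_near h (z := z) (e := 0) ht le_rfl (by simpa using h1) (by simpa using h2)
  exact dist_le_zero.1 (by nlinarith [dist_nonneg (x := z) (y := jn h x y t)])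

theorem jn_zero (x y : X) : jn h x y 0 = x :=
  (jn_uniq h ⟨le_rfl, zero_le_one⟩ (by simp) (by simp)).symm

theorem jn_one (x y : X) : jn h x y 1 = y :=
  (jn_uniq h ⟨zero_le_one, le_rfl⟩ (by simp) (by simp)).symm

theorem jn_symm (x y : X) (ht : t ∈ Icc (0 : ℝ) 1) : jn h x y t = jn h y x (1 - t) := by
  refine jn_uniq h ⟨by linarith [ht.2], by linarith [ht.1]⟩ ?_ ?_
  · rw [dist_comm y, dist_comm y]
    exact jn_right_le h x y ht
  · rw [dist_comm _ x, dist_comm y, sub_sub_cancel]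
    exact jn_left_le h x y ht

theorem jn_tim (x y : X) {s : ℝ} (hs : s ∈ Icc (0 : ℝ) 1) (ht : t ∈ Icc (0 : ℝ) 1) :
    dist (jn h x y s) (jn h x y t) = |s - t| * dist x y := by
  have a := jn_cn h x y ht (jn h x y s)
  rw [dist_comm _ x, jn_left h x y hs, jn_right h x y hs] at a
  apply le_antisymm
  · refine abs_le_of_sq_le_sq' ?_ (by positivity) |>.2
    rw [mul_pow, sq_abs]
    nlinarith
  · have b := abs_dist_sub_le (jn h x y s) (jn h x y t) x
    rw [dist_comm _ x, dist_comm _ x, jn_left h x y hs, jn_left h x y ht, ← sub_mul, abs_mul,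
      abs_dist] at b
    exact b

theorem jn_cvx1 (x y y' : X) (ht : t ∈ Icc (0 : ℝ) 1) :
    dist (jn h x y t) (jn h x y' t) ≤ t * dist y y' := by
  have a := jn_cn h x y ht (jn h x y' t)
  have b := jn_cn h x y' ht y
  rw [dist_comm _ x, jn_left h x y' ht, dist_comm _ y, dist_comm (jn h x y' t)] at a
  rw [dist_comm y x] at b
  have c := mul_le_mul_of_nonneg_left b ht.1
  refine abs_le_of_sq_le_sq' (by nlinarith) (mul_nonneg ht.1 dist_nonneg) |>.2

theorem jn_cvx (x y x' y' : X) (ht : t ∈ Icc (0 : ℝ) 1) :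
    dist (jn h x y t) (jn h x' y' t) ≤ (1 - t) * dist x x' + t * dist y y' := by
  have a := jn_cvx1 h x y y' ht
  have b := jn_cvx1 h y' x x' (t := 1 - t) ⟨by linarith [ht.2], by linarith [ht.1]⟩
  rw [← jn_symm h x y' ht, ← jn_symm h x' y' ht] at b
  linarith [dist_triangle (jn h x y t) (jn h x y' t) (jn h x' y' t)]

theorem jn_lip (x y x' y' : X) (ht : t ∈ Icc (0 : ℝ) 1) :
    dist (jn h x y t) (jn h x' y' t) ≤ max (dist x x') (dist y y') := by
  have a := jn_cvx h x y x' y' ht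
  have b := mul_le_mul_of_nonneg_left (le_max_left (dist x x') (dist y y'))
    (show 0 ≤ 1 - t by linarith [ht.2])
  have c := mul_le_mul_of_nonneg_left (le_max_right (dist x x') (dist y y')) ht.1
  linarith

/-- straight paths: geodesics with constant speed -/
def Str (W : ℕ) (p : ℕ → X) : Prop :=
  ∃ v : ℝ, ∀ i ≤ W, ∀ j ≤ W, dist (p i) (p j) = |(i : ℝ) - j| * v

theorem frac_mem {W j : ℕ} (hj : j ≤ W) : (j : ℝ) / W ∈ Icc (0 : ℝ) 1 :=
  ⟨by positivity, div_le_one_of_le₀ (by exact_mod_cast hj) (by positivity)⟩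

theorem Str.geo {W i j : ℕ} {p : ℕ → X} (hp : Str W p) (hW : 0 < W) (hi : i ≤ W) (hj : j ≤ W) :
    dist (p i) (p j) = |(i : ℝ) - j| * (dist (p 0) (p W) / W) := by
  obtain ⟨v, hv⟩ := hp
  have w : (0 : ℝ) < W := by exact_mod_cast hW
  rw [hv i hi j hj, hv 0 (Nat.zero_le _) W le_rfl]
  simp only [Nat.cast_zero, zero_sub, abs_neg, Nat.abs_cast]
  rw [mul_div_cancel_left₀ _ w.ne']

theorem Str.eq_jn {W j : ℕ} {p : ℕ → X} (hp : Str W p) (hj : j ≤ W) :
    p j = jn h (p 0) (p W) (j / W) := by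
  rcases Nat.eq_zero_or_pos W with rfl | hW
  · obtain rfl : j = 0 := by omega
    simp [jn_zero]
  have w : (0 : ℝ) < W := by exact_mod_cast hW
  have j1 : (j : ℝ) ≤ W := by exact_mod_cast hj
  refine jn_uniq h (frac_mem hj) (le_of_eq ?_) (le_of_eq ?_)
  · rw [hp.geo hW (Nat.zero_le _) hj]
    simp only [Nat.cast_zero, zero_sub, abs_neg, Nat.abs_cast]
    ring
  · rw [hp.geo hW hj le_rfl, abs_of_nonpos (by linarith)]
    field_simp
    ring

theorem Str.sub {W W' i : ℕ} {p : ℕ → X} (hp : Str W p) (hi : i + W' ≤ W) :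
    Str W' fun j => p (i + j) := by
  obtain ⟨v, hv⟩ := hp
  refine ⟨v, fun a ha b hb => ?_⟩
  rw [hv (i + a) (by omega) (i + b) (by omega)]
  push_cast
  rw [add_sub_add_left_eq_sub]

include h in
theorem Str.cvx {W j : ℕ} {p p' : ℕ → X} (hp : Str W p) (hp' : Str W p') (hW : 0 < W)
    (hj : j ≤ W) :
    dist (p j) (p' j) ≤ ((W - j) * dist (p 0) (p' 0) + j * dist (p W) (p' W)) / W := by
  have w : (0 : ℝ) < W := by exact_mod_cast hW
  rw [hp.eq_jn h hj, hp'.eq_jn h hj]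
  refine (jn_cvx h _ _ _ _ (frac_mem hj)).trans (le_of_eq ?_)
  field_simp

include h in
theorem Str_ex {m : ℕ} (hm : 0 < m) (a b : X) : ∃ p, Str m p ∧ p 0 = a ∧ p m = b := by
  have w : (0 : ℝ) < m := by exact_mod_cast hm
  refine ⟨fun j => jn h a b (j / m), ⟨dist a b / m, fun i hi j hj => ?_⟩, by simp [jn_zero], ?_⟩
  · rw [jn_tim h a b (frac_mem hi) (frac_mem hj), ← sub_div, abs_div, abs_of_pos w]
    ring
  · simp [div_self w.ne', jn_one]

end Pool.Agent.Work.MP_9d1ffa_al.Px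
end

-- merged part: Pool.Agent.Work.MP_9d1ffa_al.Px.TyC
section
/-! Two almost optimal chains with the same pattern. -/

namespace Pool.Agent.Work.MP_9d1ffa_al.Px

open Set

variable {V X : Type} [MetricSpace X] {F : Set (Finset V)} {q : V → V → ℝ} {n M L B : ℕ}
  {co : X → V → ℝ}

/-- a chain of `M + 1` segments of length at most `b` with enumerated simplices -/
structure Dat (F : Set (Finset V)) (q : V → V → ℝ) (n M : ℕ) (x y : V → ℝ) (b : ℝ) where
  z : ℕ → V → ℝ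
  s : ℕ → Finset V
  e : Fin (M + 1) × Fin (n + 1) → V
  z0 : z 0 = x
  zM : z (M + 1) = y
  ch : Chz F (M + 1) z s
  ln : Ln q z s (M + 1) ≤ b
  on : ∀ (i : Fin (M + 1)) v, v ∈ s i ↔ ∃ j, e (i, j) = v

section
variable {x y x' y' : V → ℝ} {b b' a : ℝ}

/-- two chains have the same pattern and almost the same ends -/
structure Same (d : Dat F q n M x y b) (d' : Dat F q n M x' y' b') (a : ℝ) : Prop where
  pat : ∀ i j, d.e i = d.e j ↔ d'.e i = d'.e j
  qq : ∀ i j k, q (d.e (i, j)) (d.e (i, k)) = q (d'.e (i, j)) (d'.e (i, k))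
  fst : ∀ j, |x (d.e (0, j)) - x' (d'.e (0, j))| ≤ a
  lst : ∀ j, |y (d.e (Fin.last M, j)) - y' (d'.e (Fin.last M, j))| ≤ a

variable {d : Dat F q n M x y b} {d' : Dat F q n M x' y' b'}

theorem Same.symm (S : Same d d' a) : Same d' d a :=
  ⟨fun i j => (S.pat i j).symm, fun i j k => (S.qq i j k).symm,
    fun j => by rw [abs_sub_comm]; exact S.fst j, fun j => by rw [abs_sub_comm]; exact S.lst j⟩

theorem Same.inn (S : Same d d' a) {i : ℕ} (hi : i < M + 1) {w : V → ℝ} (hw : In (d.s i) w) :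
    In (d'.s i) (tr d.e d'.e w) :=
  tr_In S.pat (ι := fun j => (⟨i, hi⟩, j)) (d.on ⟨i, hi⟩) (d'.on ⟨i, hi⟩) hw

theorem Same.ch (S : Same d d' a) : Chz F (M + 1) (fun i => tr d.e d'.e (d.z i)) d'.s :=
  fun i hi => ⟨(d'.ch i hi).1, S.inn hi (d.ch i hi).2.1, S.inn hi (d.ch i hi).2.2⟩

theorem Same.ed_eq (S : Same d d' a) {i : ℕ} (hi : i < M + 1) (u w : V → ℝ) :
    ed q (d'.s i) (tr d.e d'.e u) (tr d.e d'.e w) = ed q (d.s i) u w :=
  tr_ed S.pat (ι := fun j => (⟨i, hi⟩, j)) (d.on ⟨i, hi⟩) (d'.on ⟨i, hi⟩) (S.qq ⟨i, hi⟩) u w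

theorem Same.Ln_eq (S : Same d d' a) {k : ℕ} (hk : k ≤ M + 1) :
    Ln q (fun i => tr d.e d'.e (d.z i)) d'.s k = Ln q d.z d.s k :=
  Finset.sum_congr rfl fun i hi => S.ed_eq (by have := Finset.mem_range.1 hi; omega) _ _

end

variable {x y x' y' : X} {b b' a : ℝ} {d : Dat F q n M (co x) (co y) b}
  {d' : Dat F q n M (co x') (co y') b'}

theorem Same.ends (h : Cx F q n co) (hN : Nice co n L B) (S : Same d d' a) (h0 : 0 ≤ a)
    (h1 : a * B ≤ 1) : ∃ u w : X, co u = tr d.e d'.e (d.z 0) ∧ co w = tr d.e d'.e (d.z (M + 1)) ∧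
      dist u x' ≤ B * a ∧ dist w y' ≤ B * a := by
  have c0 := S.ch 0 (Nat.succ_pos M)
  have c1 := S.ch M (Nat.lt_succ_self M)
  obtain ⟨u, hu⟩ := h.exX c0.1 c0.2.1
  obtain ⟨w, hw⟩ := h.exX c1.1 c1.2.2
  refine ⟨u, w, hu, hw, hN.near _ _ a (fun v => ?_) h1, hN.near _ _ a (fun v => ?_) h1⟩
  · rw [hu]
    have e1 := (d.ch 0 (Nat.succ_pos M)).2.1
    have e2 := (d'.ch 0 (Nat.succ_pos M)).2.1
    rw [d'.z0] at e2
    refine tr_near S.pat (ι := fun j => (0, j)) (d.on 0) (d'.on 0) e1 e2 h0 (fun j => ?_) v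
    rw [d.z0]
    exact S.fst j
  · rw [hw]
    have e1 := (d.ch M (Nat.lt_succ_self M)).2.2
    have e2 := (d'.ch M (Nat.lt_succ_self M)).2.2
    rw [d'.zM] at e2
    refine tr_near S.pat (ι := fun j => (Fin.last M, j)) (d.on (Fin.last M)) (d'.on (Fin.last M))
      e1 e2 h0 (fun j => ?_) v
    rw [d.zM]
    exact S.lst j

theorem Same.dist_le (h : Cx F q n co) (hN : Nice co n L B) (S : Same d d' a) (h0 : 0 ≤ a)
    (h1 : a * B ≤ 1) : dist x' y' ≤ b + 2 * (B * a) := by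
  obtain ⟨u, w, hu, hw, du, dw⟩ := S.ends h hN h0 h1
  have e := h.le_Ln S.ch (Nat.zero_le _) le_rfl hu hw
  rw [S.Ln_eq le_rfl, S.Ln_eq (Nat.zero_le _)] at e
  have e0 : Ln q d.z d.s 0 = 0 := Finset.sum_range_zero _
  linarith [dist_triangle4 x' u w y', dist_comm x' u, d.ln]

/-- points at the same fraction of the two geodesics are close to a point of the chain and to its
transported copy -/
theorem Same.core (h : Cx F q n co) (hN : Nice co n L B)
    {d : Dat F q n M (co x) (co y) (dist x y + B * a)}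
    {d' : Dat F q n M (co x') (co y') (dist x' y' + B * a)} (S : Same d d' a) (h0 : 0 ≤ a)
    (h1 : a * B ≤ 1) {t : ℝ} (ht : t ∈ Icc (0 : ℝ) 1) :
    ∃ (ξ ξ' : X) (s : Finset V), In s (co ξ) ∧ (∀ v ∈ s, ∃ i, d.e i = v) ∧
      co ξ' = tr d.e d'.e (co ξ) ∧
      dist ξ (jn h.cat x y t) ^ 2 ≤ 5 * (B * a) * dist x y + (5 * (B * a)) ^ 2 ∧
      dist ξ' (jn h.cat x' y' t) ^ 2 ≤ 5 * (B * a) * dist x' y' + (5 * (B * a)) ^ 2 := by
  obtain ⟨u, w, hu, hw, du, dw⟩ := S.ends h hN h0 h1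
  have e := S.symm.dist_le h hN h0 h1
  obtain ⟨i, hi, τ, hτ, hs⟩ := split_sum (fun i => ed q (d.s i) (d.z i) (d.z (i + 1)))
    (fun _ => Real.sqrt_nonneg _) (Nat.succ_pos M) ht
  have c := d.ch i hi
  have k := c.2.1.cb c.2.2 hτ
  obtain ⟨ξ, hξ⟩ := h.exX c.1 k
  obtain ⟨ξ', hξ'⟩ := h.exX (d'.ch i hi).1 (S.inn hi k)
  have m := h.mid d.ch hi hτ d.z0.symm d.zM.symm hξ
  have m' := h.mid S.ch hi hτ hu hw (hξ'.trans (tr_cb _ _ _ _ _))
  rw [S.Ln_eq le_rfl, S.Ln_eq hi.le, S.ed_eq hi] at m'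
  change Ln q d.z d.s i + τ * ed q (d.s i) (d.z i) (d.z (i + 1)) = t * Ln q d.z d.s (M + 1) at hs
  rw [hs] at m m'
  have l := d.ln
  have δ0 : 0 ≤ B * a := by positivity
  have t0 := ht.1
  have t1 : 0 ≤ 1 - t := by linarith [ht.2]
  have l1 := mul_le_mul_of_nonneg_left l t0
  have l2 := mul_le_mul_of_nonneg_left l t1
  have l3 := mul_le_mul_of_nonneg_left e t0
  have l4 := mul_le_mul_of_nonneg_left e t1
  have l5 := mul_nonneg t0 δ0
  have l6 := mul_nonneg t1 δ0
  refine ⟨ξ, ξ', d.s i, hξ ▸ k, fun v hv => ?_, by rw [hξ', hξ],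
    jn_near h.cat ht (by positivity) (by linarith [m.1]) (by linarith [m.2]),
    jn_near h.cat ht (by positivity) ?_ ?_⟩
  · obtain ⟨j, hj⟩ := (d.on ⟨i, hi⟩ v).1 hv
    exact ⟨_, hj⟩
  · linarith [m'.1, dist_triangle x' u ξ', dist_comm x' u]
  · linarith [m'.2, dist_triangle ξ' w y']

end Pool.Agent.Work.MP_9d1ffa_al.Px
end

-- merged part: Pool.Agent.Work.MP_9d1ffa_al.Px.TyD
section
/-! The types of geodesics. -/

namespace Pool.Agent.Work.MP_9d1ffa_al.Px

open Set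

variable {V X : Type} [MetricSpace X] {F : Set (Finset V)} {q : V → V → ℝ} {n M L B : ℕ}
  {co : X → V → ℝ}

theorem Cx.dat (h : Cx F q n co) : ∃ N : ℕ, ∀ (ρ : ℕ) (δ : ℝ), 0 < δ → δ ≤ 1 → ∀ x y : X,
    dist x y ≤ ρ → Nonempty (Dat F q n (N * (ρ + 2)) (co x) (co y) (dist x y + δ)) := by
  obtain ⟨C, c1, hC⟩ := h.hi
  obtain ⟨c, c0, -, hc⟩ := h.lo
  obtain ⟨N, hN⟩ := short_chain (V := V) (n + 1) c0 (lt_of_lt_of_le one_pos c1)
  refine ⟨N, fun ρ δ d0 d1 x y hρ => ?_⟩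
  obtain ⟨l, ⟨m, z, s, z0, zm, ch, e⟩, -, hl⟩ := (h.len x y).exists_between (lt_add_of_pos_right _ d0)
  obtain ⟨m2, z2, s2, a1, a2, a3, a4, a5⟩ :=
    hN F q h.dim (fun s hs w w0 w1 => ⟨hc s hs w w0 w1, hC s hs w⟩) m z s ch
  rw [e] at a1 a5
  have k : m2 ≤ N * (ρ + 2) + 1 := by
    have : (m2 : ℝ) ≤ (N * (ρ + 2) + 1 : ℕ) := by
      push_cast
      have := mul_le_mul_of_nonneg_left (show l + 1 ≤ ρ + 2 by linarith) (Nat.cast_nonneg (α := ℝ) N)
      linarith
    exact_mod_cast this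
  obtain ⟨z3, s3, b0, b1, b2, b3⟩ := Chn.pad (F := F) (q := q) (x := co x) (y := co y)
    ⟨z2, s2, a2.trans z0, (a3 m2 le_rfl).trans zm, a4, rfl⟩ k (h.exF y)
  choose e he using fun i : Fin (N * (ρ + 2) + 1) =>
    (b2 i i.2).2.1.enum (h.dim _ (b2 i i.2).1)
  exact ⟨⟨z3, s3, fun a => e a.1 a.2, b0, b1, b2, by unfold Ln; linarith, he⟩⟩

theorem In.le_one {s : Finset V} {x : V → ℝ} (hx : In s x) (v : V) : x v ≤ 1 := by
  by_cases hv : v ∈ s
  · rw [← hx.2.2]
    exact Finset.single_le_sum (fun u _ => hx.1 u) hv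
  · rw [hx.2.1 v hv]
    exact zero_le_one

theorem floor_close {K : ℕ} (hK : 0 < K) {a b : ℝ} (ha : 0 ≤ a) (hb : 0 ≤ b)
    (e : ⌊K * a⌋₊ = ⌊K * b⌋₊) : |a - b| ≤ 1 / K := by
  have k : (0 : ℝ) < K := by exact_mod_cast hK
  have a1 := Nat.floor_le (show 0 ≤ K * a by positivity)
  have a2 := Nat.lt_floor_add_one (K * a)
  have b1 := Nat.floor_le (show 0 ≤ K * b by positivity)
  have b2 := Nat.lt_floor_add_one (K * b)
  rw [e] at a1 a2
  rw [le_div_iff₀ k, ← abs_of_pos k, ← abs_mul, abs_le]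
  constructor <;> nlinarith

/-- the codes -/
abbrev Cd (T : Finset ℝ) (n M K : ℕ) : Type :=
  ((Fin (M + 1) × Fin (n + 1)) × (Fin (M + 1) × Fin (n + 1)) → Bool) ×
    (Fin (M + 1) × Fin (n + 1) × Fin (n + 1) → T) × (Fin (n + 1) → Fin (K + 1)) ×
      (Fin (n + 1) → Fin (K + 1))

theorem card_Cd (T : Finset ℝ) (n M K : ℕ) : Fintype.card (Cd T n M K) =
    2 ^ ((M + 1) * (n + 1) * ((M + 1) * (n + 1))) * (T.card ^ ((M + 1) * ((n + 1) * (n + 1))) *
      ((K + 1) ^ (n + 1) * (K + 1) ^ (n + 1))) := by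
  simp

theorem floor_lt (h : Cx F q n co) (K : ℕ) (x : X) (v : V) : ⌊K * co x v⌋₊ < K + 1 := by
  obtain ⟨s, -, hx⟩ := h.exF x
  have a := mul_le_mul_of_nonneg_left (hx.le_one v) (Nat.cast_nonneg (α := ℝ) K)
  have b := Nat.floor_mono a
  rw [mul_one, Nat.floor_natCast] at b
  omega

open Classical in
/-- the code of a chain -/
noncomputable def Dat.code (h : Cx F q n co) (K : ℕ) {x y : X} {b : ℝ}
    (d : Dat F q n M (co x) (co y) b) : Cd h.shp.toFinset n M K :=
  (fun a => decide (d.e a.1 = d.e a.2),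
    fun a => ⟨q (d.e (a.1, a.2.1)) (d.e (a.1, a.2.2)), h.shp.mem_toFinset.2
      ⟨d.s a.1, (d.ch a.1 a.1.2).1, _, (d.on a.1 _).2 ⟨_, rfl⟩, _, (d.on a.1 _).2 ⟨_, rfl⟩, rfl⟩⟩,
    fun j => ⟨_, floor_lt h K x (d.e (0, j))⟩, fun j => ⟨_, floor_lt h K y (d.e (Fin.last M, j))⟩)

theorem Dat.same (h : Cx F q n co) {K : ℕ} (hK : 0 < K) {x y x' y' : X} {b b' : ℝ}
    {d : Dat F q n M (co x) (co y) b} {d' : Dat F q n M (co x') (co y') b'}
    (e : d.code h K = d'.code h K) : Same d d' (1 / K) := by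
  have p : ∀ (x : X) v, 0 ≤ co x v := fun x v => (h.exF x).choose_spec.2.1 v
  refine ⟨fun i j => ?_, fun i j k => ?_, fun j => ?_, fun j => ?_⟩
  · exact decide_eq_decide.1 (congrFun (congrArg (·.1) e) (i, j))
  · exact congrArg Subtype.val (congrFun (congrArg (·.2.1) e) (i, j, k))
  · exact floor_close hK (p _ _) (p _ _) (congrArg Fin.val (congrFun (congrArg (·.2.2.1) e) j))
  · exact floor_close hK (p _ _) (p _ _) (congrArg Fin.val (congrFun (congrArg (·.2.2.2) e) j))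

/-- the number of codes up to the power of the precision -/
def Us (n N T B ρ : ℕ) : ℕ :=
  2 ^ ((N * (ρ + 2) + 1) * (n + 1) * ((N * (ρ + 2) + 1) * (n + 1))) *
    (T ^ ((N * (ρ + 2) + 1) * ((n + 1) * (n + 1))) * (120 * B * (ρ + 1) + 1) ^ (2 * (n + 1)))

theorem sq_small {δ D e ρ K : ℝ} (hK : 1 ≤ K) (hρ : 0 ≤ ρ) (hD : D ≤ ρ)
    (hδ : δ = 1 / (120 * (ρ + 1) * K ^ 2)) (h : e ^ 2 ≤ 5 * δ * D + (5 * δ) ^ 2) :
    e ≤ 1 / (2 * K) := by
  have k : 0 < K := by linarith
  have k2 : 1 ≤ K ^ 2 := one_le_pow₀ hK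
  have d0 : 0 < δ := by rw [hδ]; positivity
  have d1 : δ * (120 * (ρ + 1) * K ^ 2) = 1 := by rw [hδ]; field_simp
  have d2 : δ ≤ 1 := by
    rw [hδ]
    exact div_le_one_of_le₀ (by nlinarith) (by positivity)
  refine abs_le_of_sq_le_sq' ?_ (by positivity) |>.2
  rw [div_pow, one_pow, le_div_iff₀ (by positivity)]
  have d3 : e ^ 2 ≤ 30 * δ * (ρ + 1) := by nlinarith
  have d4 := mul_le_mul_of_nonneg_right d3 (show 0 ≤ (2 * K) ^ 2 by positivity)
  nlinarith

theorem Cx.typ (h : Cx F q n co) (hN : Nice co n L B) : ∃ N T : ℕ, ∀ Q ρ K W : ℕ, 0 < K →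
    ∃ cd : (ℕ → X) → ℕ, (∀ p, cd p < Us n N T B ρ * K ^ (4 * (n + 1))) ∧
      ∀ p p' : ℕ → X, Str W p → Str W p' → dist (p 0) (p W) ≤ ρ → dist (p' 0) (p' W) ≤ ρ →
        cd p = cd p' → ∀ c : Sm V n, ∃ c' : Sm V n, ∀ j ≤ W,
          |mg co L B Q c (p j) - mg co L B Q c' (p' j)| ≤ 1 / K := by
  classical
  obtain ⟨N, hd⟩ := h.dat
  refine ⟨N, h.shp.toFinset.card, fun Q ρ K W hK => ?_⟩
  obtain ⟨K2, k2⟩ : ∃ K2, K2 = 120 * B * (ρ + 1) * K ^ 2 := ⟨_, rfl⟩
  have b0 : 0 < B := by have := hN.Bge; omega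
  have b1 : (0 : ℝ) < B := by exact_mod_cast b0
  have k0 : 0 < K2 := by rw [k2]; positivity
  have k1 : (1 : ℝ) ≤ K := by exact_mod_cast hK
  have e0 : (B : ℝ) * (1 / K2) = 1 / (120 * (ρ + 1) * K ^ 2) := by
    rw [k2]
    push_cast
    field_simp
  have e1 : (B : ℝ) * (1 / K2) ≤ 1 := by
    rw [e0]
    have := one_le_pow₀ (n := 2) k1
    have : (0 : ℝ) ≤ ρ := Nat.cast_nonneg _
    exact div_le_one_of_le₀ (by nlinarith) (by positivity)
  have e2 : (0 : ℝ) < B * (1 / K2) := by positivity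
  let en : (ℕ → X) → X := fun p => if dist (p 0) (p W) ≤ ρ then p W else p 0
  have hen : ∀ p, dist (p 0) (en p) ≤ ρ := fun p => by
    simp only [en]
    split_ifs with a
    · exact a
    · simp
  let d := fun p : ℕ → X => (hd ρ _ e2 e1 (p 0) (en p) (hen p)).some
  refine ⟨fun p => Fintype.equivFin _ ((d p).code h K2), fun p => lt_of_lt_of_le (Fin.is_lt _) ?_,
    fun p p' hp hp' r r' e c => ?_⟩
  · rw [card_Cd, Us, mul_assoc (2 ^ _), mul_assoc (_ ^ _) (_ ^ (2 * (n + 1)))]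
    refine Nat.mul_le_mul_left _ (Nat.mul_le_mul_left _ ?_)
    rw [← pow_add, ← two_mul, show 4 * (n + 1) = 2 * (2 * (n + 1)) by ring, pow_mul K, ← mul_pow]
    refine Nat.pow_le_pow_left ?_ _
    have : 1 ≤ K ^ 2 := Nat.one_le_pow _ _ hK
    rw [k2, add_mul]
    omega
  · have S := Dat.same h k0 ((Fintype.equivFin _).injective (Fin.ext e))
    obtain ⟨c', hc⟩ := tr_sm S.pat (B * Q) c
    refine ⟨c', fun j hj => ?_⟩
    obtain ⟨ξ, ξ', s, a1, a2, a3, a4, a5⟩ :=
      S.core h hN (by positivity) (by rw [mul_comm]; exact e1) (frac_mem hj)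
    have a6 : mg co L B Q c' ξ' = mg co L B Q c ξ := by
      unfold mg
      rw [a3, hc s _ a1 a2]
    have a7 := sq_small k1 (Nat.cast_nonneg ρ) (hen p) e0 a4
    have a8 := sq_small k1 (Nat.cast_nonneg ρ) (hen p') e0 a5
    rw [show en p = p W from if_pos r, ← hp.eq_jn h.cat hj] at a7
    rw [show en p' = p' W from if_pos r', ← hp'.eq_jn h.cat hj] at a8
    have a9 := abs_le.1 (mg_lip hN Q c ξ (p j))
    have a10 := abs_le.1 (mg_lip hN Q c' ξ' (p' j))
    have a11 : (1 : ℝ) / K = 1 / (2 * K) + 1 / (2 * K) := by field_simp; ring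
    rw [abs_le]
    constructor <;> linarith [a9.1, a9.2, a10.1, a10.2]

end Pool.Agent.Work.MP_9d1ffa_al.Px
end

-- merged part: Pool.Agent.Work.MP_9d1ffa_al.Px.In
section
/-! The geometric data of a CAT(0) simplicial complex with finitely many shapes. -/

namespace Pool.Agent.Work.MP_9d1ffa_al.Px

open Set Gb

variable {V X : Type} [MetricSpace X] {F : Set (Finset V)} {q : V → V → ℝ} {n L B : ℕ}
  {co : X → V → ℝ} {G : Type} [Group G] [MulAction G V] [MulAction G X]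

theorem jn_bi (h : Cat0 X) : Gd.Bi (jn h) :=
  ⟨jn_zero h, jn_one h, fun x y x' y' _ ht => jn_lip h x y x' y' ht,
    fun x y _ ht _ ht' => (jn_tim h x y ht ht').le⟩

theorem stp_end {W ρ : ℕ} {η : ℝ} {p : ℕ → X} (h : Ga.Stp W η p) (hρ : W * η ≤ ρ) :
    dist (p 0) (p W) ≤ ρ := by
  have a := h 0 (Nat.zero_le _) W le_rfl
  simp only [Nat.cast_zero, zero_sub, abs_neg, Nat.abs_cast] at a
  exact a.trans hρ

theorem el_Us (n N T B : ℕ) : El (Us n N T B) := by
  have a : El fun ρ => N * (ρ + 2) + 1 :=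
    ((El.const N).mul (El.id.add (El.const 2))).add (El.const 1)
  have b : El fun ρ => (N * (ρ + 2) + 1) * (n + 1) := a.mul (El.const _)
  exact (b.mul b).two_pow.mul (((El.const T).pow (a.mul (El.const _))).mul
    ((((El.const (120 * B)).mul (El.id.add (El.const 1))).add (El.const 1)).pow (El.const _)))

/-- the geometric data -/
noncomputable def geo (h : Cx F q n co) (hN : Nice co n L B) (o : X)
    (iso : ∀ (g : G) (x y : X), dist (g • x) (g • y) = dist x y)
    (eqv : ∀ (g : G) x v, co (g • x) (g • v) = co x v) : Ga.Geo G X (Sm V n) where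
  n := (n + 2) * B * L
  D := 4 * (n + 1)
  o := o
  Str := Str
  mg := mg co L B
  Cs := fun Q ρ => (2 * ((n + 2) * B * L) * Q * ρ + 1) * ((n + 2) * (B * Q + 1) ^ (n + 1))
  Us := fun _ => Us n (h.typ hN).choose (h.typ hN).choose_spec.choose B
  iso := iso
  sub := Str.sub
  smul := fun g ⟨v, hv⟩ => ⟨v, fun i hi j hj => by rw [iso, hv i hi j hj]⟩
  cvx := Str.cvx h.cat
  geo := Str.geo
  ex := Str_ex h.cat
  mg_nonneg := mg_nonneg co L B
  mg_lip := mg_lip hN
  mg_smul := fun g => mg_smul eqv g L B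
  mg_dist := mg_dist hN
  mg_card := fun {Q} _ x => (mg_card co L B Q x).trans (by
    have a : 1 ≤ B * L := Nat.mul_pos (by have := hN.Bge; omega) hN.Lpos
    have b := Nat.mul_le_mul_left (n + 2) a
    exact_mod_cast (show n + 2 ≤ (n + 2) * B * L + 1 by rw [mul_assoc]; omega))
  mg_big := fun {Q} hQ x => (mg_big hN hQ x).imp fun c hc => le_trans (by
    have a : 0 < (n + 2) * B * L :=
      Nat.mul_pos (Nat.mul_pos (by omega) (by have := hN.Bge; omega)) hN.Lpos
    have b : (0 : ℝ) < ((n + 2) * B * L : ℕ) := by exact_mod_cast a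
    have c : (0 : ℝ) < Q := by exact_mod_cast hQ
    exact one_div_le_one_div_of_le (by positivity) (by nlinarith)) hc
  cnt := fun hQ _ h0 _ hp hρ => path_cnt hN hQ h0 hp hρ
  typ := fun Q ρ K W _ hK => by
    obtain ⟨cd, a, b⟩ := (h.typ hN).choose_spec.choose_spec Q ρ K W hK
    exact ⟨cd, a, fun η p p' hp hp' _ _ s s' hρ e c _ _ _ =>
      b p p' hp hp' (stp_end s hρ) (stp_end s' hρ) e c⟩
  elC := fun Q => (((El.const _).mul El.id).add (El.const 1)).mul (El.const _)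
  elU := fun _ => el_Us _ _ _ _

theorem sp_fin (hN : Nice co n L B) {Q : ℕ} {c : Sm V n} {x : X} (hx : 0 < mg co L B Q c x) :
    (sp c).Finite := by
  obtain ⟨s, -, hs⟩ := hN.pt x
  exact s.finite_toSet.subset fun v hv => by_contra fun k => (sp_pos hN hx hv).ne' (hs.2.1 v k)

theorem sp_near (h : Cx F q n co) : ∃ C : ℕ, ∀ x v, 0 < co x v →
    ∃ y, co y v = 1 ∧ dist y x ≤ C := by
  classical
  obtain ⟨C, c1, hC⟩ := h.hi
  refine ⟨⌈C⌉₊, fun x v hv => ?_⟩
  obtain ⟨s, hs, hx⟩ := h.exF x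
  have m : v ∈ s := by_contra fun k => hv.ne' (hx.2.1 v k)
  have a : In s fun u => if u = v then 1 else 0 :=
    ⟨fun u => by positivity, fun u hu => if_neg fun e : u = v => hu (e ▸ m), by simp [m]⟩
  obtain ⟨y, hy⟩ := h.exX hs a
  refine ⟨y, by simp [hy], (h.le_ed hs (hy ▸ a) hx).trans (le_trans ?_ (Nat.le_ceil C))⟩
  refine Real.sqrt_le_iff.2 ⟨by linarith, (hC s hs _ 1 fun u => ?_).trans_eq (by ring)⟩
  have b := (hy ▸ a : In s (co y))
  rw [Pi.sub_apply, abs_le]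
  constructor <;> linarith [b.1 u, b.le_one u, hx.1 u, hx.le_one u]

theorem In.vx {s : Finset V} {w : V → ℝ} (hw : In s w) {u v : V} (hv : w v = 1) (e : u ≠ v) :
    w u = 0 := by
  classical
  by_contra k
  have m : v ∈ s := by_contra fun j => one_ne_zero (hv ▸ hw.2.1 v j)
  have m' : u ∈ s := by_contra fun j => k (hw.2.1 u j)
  have a := Finset.sum_le_sum_of_subset_of_nonneg (f := w)
    (show ({u, v} : Finset V) ⊆ s by simp [Finset.insert_subset_iff, m, m']) fun i _ _ => hw.1 i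
  rw [Finset.sum_pair e, hw.2.2, hv] at a
  exact k (le_antisymm (by linarith) (hw.1 u))

theorem Cx.vx_eq (h : Cx F q n co) {x y : X} {v : V} (hx : co x v = 1) (hy : co y v = 1) :
    x = y := by
  refine h.inj (funext fun u => ?_)
  by_cases e : u = v
  · rw [e, hx, hy]
  · rw [(h.exF x).choose_spec.2.vx hx e, (h.exF y).choose_spec.2.vx hy e]

theorem Cx.vx_fix (h : Cx F q n co) (eqv : ∀ (g : G) x v, co (g • x) (g • v) = co x v) {x : X}
    {v : V} (hx : co x v = 1) (g : G) : g • x = x ↔ g • v = v := by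
  have a := (eqv g x v).trans hx
  refine ⟨fun e => by_contra fun k => ?_, fun e => h.vx_eq (e ▸ a) hx⟩
  rw [e, (h.exF x).choose_spec.2.vx hx k] at a
  exact zero_ne_one a

/-- the geometric data with the facts about the isotropy groups of samples -/
theorem exists_geo (h : Cx F q n co) [Nonempty X]
    (iso : ∀ (g : G) (x y : X), dist (g • x) (g • y) = dist x y)
    (eqv : ∀ (g : G) x v, co (g • x) (g • v) = co x v) :
    ∃ A : Ga.Geo G X (Sm V n), A.Str = Str ∧
      (∀ Q (g : G) c x, 0 < A.mg Q c x → 0 < A.mg Q (g • c) x → g • c = c) ∧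
      ∀ Q c x, 0 < Q → 0 < A.mg Q c x → (sp c).Finite ∧ (sp c).Nonempty ∧
        ∀ v ∈ sp c, 0 < co x v := by
  obtain ⟨L, B, hN⟩ := h.nice
  exact ⟨geo h hN (Classical.arbitrary X) iso eqv, rfl,
    fun Q g c x a b => mg_uniq (Sm.smul_fst g c) b a,
    fun Q c x hQ a => ⟨sp_fin hN a, sp_ne hN hQ a, fun v hv => sp_pos hN a hv⟩⟩

end Pool.Agent.Work.MP_9d1ffa_al.Px
end

-- merged part: Pool.Agent.Work.MP_9d1ffa_al.Gd.Dc
section
/-! Actions of finite height on CAT(0) simplicial complexes with finitely many shapes. -/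

namespace Pool.Agent.Work.MP_9d1ffa_al.Gd

open Set Subgroup MulAction Ga Px

variable {V X : Type} [MetricSpace X] {F : Set (Finset V)} {q : V → V → ℝ} {n : ℕ}
  {co : X → V → ℝ} {G : Type} [Group G] [MulAction G V] [MulAction G X]

/-- barycentres -/
def Bary (co : X → V → ℝ) : Set X := {p | ∃ r, ∀ v, co p v = 0 ∨ co p v = r}

theorem cx_disc (h : Cx F q n co) [Nonempty X]
    (iso : ∀ (g : G) (x y : X), dist (g • x) (g • y) = dist x y)
    (eqv : ∀ (g : G) x v, co (g • x) (g • v) = co x v) :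
    ∃ N P : ℕ, 0 < N ∧ ∀ x, ∃ p ∈ Bary co, dist p x ≤ P ∧
      ∀ g : G, dist (g • x) x ≤ 2 / N → g • p = p := by
  classical
  obtain ⟨A, -, u, k⟩ := exists_geo h iso eqv
  obtain ⟨C, c1, hC⟩ := h.hi
  refine ⟨8 * (A.n + 1), ⌈C⌉₊, by positivity, fun x => ?_⟩
  obtain ⟨c, hc⟩ := A.mg_big one_pos x
  have n0 : (0 : ℝ) < A.n + 1 := by positivity
  have e : (2 : ℝ) / (8 * (A.n + 1) : ℕ) < 1 / (2 * (A.n + 1) * (1 : ℕ)) := by
    push_cast
    rw [div_lt_div_iff₀ (by positivity) (by positivity)]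
    linarith
  obtain ⟨k1, k2, k3⟩ := k 1 c x one_pos (lt_of_lt_of_le (by positivity) hc)
  obtain ⟨s, hs, hx⟩ := h.exF x
  have m : k1.toFinset ⊆ s := fun v hv => by_contra fun j =>
    (k3 v (k1.mem_toFinset.1 hv)).ne' (hx.2.1 v j)
  have c0 : (0 : ℝ) < k1.toFinset.card := by
    exact_mod_cast Finset.card_pos.2 (k1.toFinset_nonempty.2 k2)
  have a : In s fun v => if v ∈ k1.toFinset then 1 / (k1.toFinset.card : ℝ) else 0 :=
    ⟨fun v => by positivity, fun v hv => if_neg fun j => hv (m j), by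
      rw [← Finset.sum_filter, Finset.filter_mem_eq_inter, Finset.inter_eq_right.2 m,
        Finset.sum_const, nsmul_eq_mul, mul_one_div_cancel c0.ne']⟩
  obtain ⟨p, hp⟩ := h.exX hs a
  refine ⟨p, ⟨1 / k1.toFinset.card, fun v => ?_⟩,
    (h.le_ed hs (hp ▸ a) hx).trans (le_trans ?_ (Nat.le_ceil C)), fun g hg => ?_⟩
  · simp only [hp]
    split_ifs
    exacts [Or.inr rfl, Or.inl rfl]
  · refine Real.sqrt_le_iff.2 ⟨by linarith, (hC s hs _ 1 fun u => ?_).trans_eq (by ring)⟩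
    have b := (hp ▸ a : In s (co p))
    rw [Pi.sub_apply, abs_le]
    constructor <;> linarith [b.1 u, b.le_one u, hx.1 u, hx.le_one u]
  · have b := (abs_le.1 (A.mg_lip 1 (g • c) (g • x) x)).2
    rw [A.mg_smul] at b
    have b2 := u 1 g c x (lt_of_lt_of_le (by positivity) hc) (by linarith)
    refine h.inj (funext fun v => ?_)
    have b3 : g⁻¹ • v ∈ k1.toFinset ↔ v ∈ k1.toFinset := by
      rw [k1.mem_toFinset, k1.mem_toFinset, sp, mem_ofPred_eq, mem_ofPred_eq, ← Sm.smul_snd, b2]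
    rw [← smul_inv_smul g v, eqv, smul_inv_smul]
    simp only [hp, b3]

theorem cx_gd (h : Cx F q n co) [Nonempty X]
    (iso : ∀ (g : G) (x y : X), dist (g • x) (g • y) = dist x y)
    (eqv : ∀ (g : G) x v, co (g • x) (g • v) = co x v) {R m : ℕ}
    (ht : ∀ T : ℕ → Set X, Monotone T → (∀ k, T k ⊆ Bary co) →
      (∃ x ∈ T 0, ∃ y ∈ T 0, (R : ℝ) ≤ dist x y) →
      ∃ k ≤ m, fixingSubgroup G (T k) = fixingSubgroup G (T (k + 1)))
    {Good : Subgroup G → Prop} (mono : ∀ H H' : Subgroup G, H ≤ H' → Good H' → Good H)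
    (fi : ∀ H H' : Subgroup G, H' ≤ H → H'.relIndex H ≠ 0 → Good H' → Good H)
    (st : ∀ p ∈ Bary co, Good (stabilizer G p))
    (ln : ∀ T ⊆ Bary co, (∃ x ∈ T, ∃ y ∈ T, (R : ℝ) ≤ dist x y) → ∀ a : G,
      (∀ x ∈ T, a • x ∈ T ∧ a⁻¹ • x ∈ T) → Good (zpowers a ⊔ fixingSubgroup G T)) :
    ∃ A : Geo G X (Sm V n), A.HasZM ∧ A.Gd Good := by
  obtain ⟨N, P, hN, d⟩ := cx_disc h iso eqv
  obtain ⟨A, -⟩ := exists_geo h iso eqv
  refine ⟨A, hasZM A (jn_bi h.cat), gd_ht A (Z := Bary co) ?_ hN d ht mono fi st ln⟩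
  rintro g p ⟨r, hr⟩
  refine ⟨r, fun v => ?_⟩
  rw [← smul_inv_smul g v, eqv]
  exact hr _

omit [MetricSpace X] in
theorem ht_of_chain {P : Set (Subgroup G)} {m : ℕ}
    (h : ∀ C ⊆ P, IsChain (· ≤ ·) C → C.encard ≤ m) (T : ℕ → Set X) (hT : Monotone T)
    (k : ∀ i, fixingSubgroup G (T i) ∈ P) :
    ∃ k ≤ m, fixingSubgroup G (T k) = fixingSubgroup G (T (k + 1)) := by
  by_contra e
  push Not at e
  have a : Antitone fun i => fixingSubgroup G (T i) := (fixingSubgroup_antitone G X).comp_monotone hT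
  have b : StrictAntiOn (fun i => fixingSubgroup G (T i)) (Iic m) := fun i _ j hj ij =>
    (a ij).trans_lt (lt_of_le_of_ne (a i.le_succ) (e i (ij.le.trans hj)).symm)
  have c := h ((fun i => fixingSubgroup G (T i)) '' Iic m) (by rintro _ ⟨i, -, rfl⟩; exact k i) (by
    rintro _ ⟨i, -, rfl⟩ _ ⟨j, -, rfl⟩ -
    exact (le_total j i).imp (fun e => a e) fun e => a e)
  rw [b.injOn.encard_image, ← Finset.coe_Iic, encard_coe_eq_coe_finsetCard, Nat.card_Iic] at c
  norm_cast at c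
  omega

omit [MetricSpace X] in
theorem norm_fix {T : Set X} {a : G} (h : ∀ x ∈ T, a • x ∈ T ∧ a⁻¹ • x ∈ T) :
    a ∈ normalizer (fixingSubgroup G T : Set G) := by
  refine mem_normalizer_iff.2 fun w => ?_
  rw [mem_fixingSubgroup_iff, mem_fixingSubgroup_iff]
  refine ⟨fun k x hx => ?_, fun k x hx => ?_⟩
  · rw [mul_smul, mul_smul, k _ (h x hx).2, smul_inv_smul]
  · simpa [mul_smul] using k _ (h x hx).1

end Pool.Agent.Work.MP_9d1ffa_al.Gd
end

-- merged part: Pool.Agent.Work.MP_9d1ffa_al.Gd.Top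
section
/-! Induction over hierarchies of actions on CAT(0) complexes. -/

namespace Pool.Agent.Work.MP_9d1ffa_al.Gd

open Subgroup MulAction Function Cu

variable {W : (G : Type) → [Group G] → Prop} {G S : Type} [Group G] [Group S]

theorem pv_inj (h : PV W S) (f : G →* S) (hf : Injective f) : PV W G :=
  fun L _ tf U hU φ hφ => h L tf U hU (f.comp φ) (hf.comp hφ)

theorem pv_fin (hW : WG W) {H : Subgroup G} (hH : H.FiniteIndex) (h : PV W H) : PV W G := by
  intro L _ tf U hU φ hφ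
  refine hW.loc L fun T => h.app tf hU (C := (H.comap φ).map U.subtype) ?_ hφ ?_
  · refine fun e => ?_
    have := index_eq_zero_of_relIndex_eq_zero e
    rw [index_map_subtype, index_comap, mul_eq_zero] at this
    exact this.elim (fun e => hH.1 (index_eq_zero_of_relIndex_eq_zero e)) hU.1
  · rintro g ⟨x, hx, e⟩ -
    rwa [← Subtype.ext (p := (· ∈ U)) e]

theorem pv_mono (H H' : Subgroup G) (e : H ≤ H') (h : PV W H') : PV W H :=
  pv_inj h (inclusion e) (inclusion_injective e)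

theorem pv_fi (hW : WG W) (H H' : Subgroup G) (e : H' ≤ H) (k : H'.relIndex H ≠ 0) (h : PV W H') :
    PV W H :=
  pv_fin hW (H := H'.subgroupOf H) ⟨k⟩
    (pv_inj h (subgroupOfEquivOfLe e).toMonoidHom (subgroupOfEquivOfLe e).injective)

theorem pv_hc (hW : WG W) (h : Hc S) : PV W S := by
  induction h with
  | lin G R n ρ h => exact hW.pv (.lin G R n ρ h)
  | fin G H hH _ ih => exact pv_fin hW hH ih
  | loc G _ ih =>
    intro L _ tf U hU φ hφ
    refine hW.loc L fun T => ?_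
    let K := closure (T : Set L)
    have : Group.FG K := (Group.fg_iff_subgroup_fg K).2 ⟨T, rfl⟩
    have : (U.subgroupOf K).FiniteIndex := inferInstance
    let ι : U.subgroupOf K →* U := K.subtype.subgroupComap U
    exact (ih (φ.comp ι).range ((Group.fg_iff_subgroup_fg _).1 inferInstance)).app tf hU (C := K)
      (by rw [relIndex_self]; exact one_ne_zero) hφ fun g _ a => ⟨⟨⟨g.1, a⟩, g.2⟩, rfl⟩
  | cat G V X F q n co cx iso eqv P D m far ht _ _ st ln =>
    obtain ⟨A, -, hA⟩ := cx_gd cx iso eqv (R := D) (m := m) (Good := fun H => PV W H)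
      (fun T hT _ ⟨x, hx, y, hy, d⟩ => ht_of_chain ht T hT fun i =>
        far _ x (hT i.zero_le hx) y (hT i.zero_le hy) d) pv_mono (pv_fi hW) (fun p _ => st p)
      fun T _ ⟨x, hx, y, hy, d⟩ a ha => ln _ (far T x hx y hy d) a (norm_fix ha)
    exact hW.geo A (Px.jn_bi cx.cat) hA fun _ h => h

theorem w_hc (hW : WG W) (h : Hc S) (tf : ∀ g : S, IsOfFinOrder g → g = 1) : W S :=
  pv_hc hW h S tf ⊤ inferInstance (Subgroup.subtype _) (subtype_injective _)

end Pool.Agent.Work.MP_9d1ffa_al.Gd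
end

-- merged part: Pool.Agent.Work.MP_9d1ffa_al.Ar.HtA
section
/-! The isotropy groups of the vertices of the coset complex. -/

namespace Pool.Agent.Work.MP_9d1ffa_al.Ar

open Set Px Subgroup

variable {S : Type} {M : CoxeterMatrix S}

/-- the trivial group and the conjugates of the cyclic standard subgroups -/
def Pc (M : CoxeterMatrix S) : Set (Subgroup (Art M)) :=
  {H | H = ⊥ ∨ ∃ u r, IsConj (gn M u) r ∧ H = zpowers r}

theorem len_conj {u : S} {r : Art M} (h : IsConj (gn M u) r) :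
    len M r = Multiplicative.ofAdd 1 := by
  exact (isConj_iff_eq.1 ((len M).map_isConj h)).symm.trans (len_gn M u)

theorem hc_comm {G : Type} [Group G] (h : ∀ a b : G, a * b = b * a) : Hc G := by
  exact Hc.lin G ℤ 0 1 fun x _ => mem_center_iff.2 fun y => h y x

theorem HtA_len {r : Art M} (h : len M r = Multiplicative.ofAdd 1) (k : ℤ) :
    len M (r ^ k) = Multiplicative.ofAdd k := by
  rw [map_zpow, h, ← ofAdd_zsmul, smul_eq_mul, mul_one]

theorem HtA_eq {r r' : Art M} (h : len M r = Multiplicative.ofAdd 1)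
    (h' : len M r' = Multiplicative.ofAdd 1) (m : r ∈ zpowers r') : r = r' := by
  obtain ⟨k, rfl⟩ := mem_zpowers_iff.1 m
  rw [HtA_len h'] at h
  rw [Multiplicative.ofAdd.injective h, zpow_one]

theorem HtA_one {G : Type} [Group G] {c g : G} (e : c⁻¹ * g * c = 1) : g = 1 := by
  rw [mul_assoc, inv_mul_eq_one] at e
  exact mul_eq_right.1 e.symm

theorem HtA_two {G : Type} [Group G] {a r : G} (c : a * r = r * a) :
    Hc ↥(zpowers a ⊔ zpowers r) := by
  have k : ∀ x : G, x * a = a * x → x * r = r * x → ∀ y ∈ zpowers a ⊔ zpowers r, x * y = y * x :=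
    fun x e e' y m => (sup_le (zpowers_le_of_mem (mem_centralizer_singleton_iff.2 e.symm))
      (zpowers_le_of_mem (mem_centralizer_singleton_iff.2 e'.symm)) :
        _ ≤ Subgroup.centralizer {x}) m x rfl
  exact hc_comm fun x y => Subtype.ext (k x (k a rfl c x x.2).symm (k r c.symm rfl x x.2).symm y y.2)

theorem pc_ht : ∀ C ⊆ Pc M, IsChain (· ≤ ·) C → C.encard ≤ (2 : ℕ) := by
  intro C hC c
  have key : ∀ H : Subgroup (Art M), C ⊆ {⊥, H} → C.encard ≤ (2 : ℕ) := fun H e =>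
    (encard_le_encard e).trans ((encard_insert_le _ _).trans (by rw [encard_singleton]; rfl))
  by_cases e : ∃ H ∈ C, H ≠ ⊥
  · obtain ⟨H, h1, h2⟩ := e
    obtain ⟨u, r, hr, rfl⟩ := (hC h1).resolve_left h2
    refine key (zpowers r) fun K hK => ?_
    rcases hC hK with e | ⟨u', r', hr', rfl⟩
    · exact Or.inl e
    refine Or.inr ?_
    rcases c.total hK h1 with l | l
    · rw [HtA_eq (len_conj hr') (len_conj hr) (l (mem_zpowers _))]
      rfl
    · rw [HtA_eq (len_conj hr) (len_conj hr') (l (mem_zpowers _))]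
      rfl
  · push Not at e
    exact key ⊥ fun K hK => Or.inl (e K hK)

theorem pc_ln : ∀ H ∈ Pc M, ∀ a ∈ normalizer (H : Set (Art M)), Hc ↥(zpowers a ⊔ H) := by
  rintro H (rfl | ⟨u, r, hr, rfl⟩) a ha
  · rw [← zpowers_one_eq_bot]
    exact HtA_two (by rw [mul_one, one_mul])
  · have m : a * r * a⁻¹ ∈ zpowers r := (ha r).1 (mem_zpowers r)
    have e := HtA_eq (len_conj (hr.trans (isConj_iff.2 ⟨a, rfl⟩))) (len_conj hr) m
    exact HtA_two (mul_inv_eq_iff_eq_mul.1 e)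

theorem hc_vx (ha : Alg M) (v : Vx M) {H : Subgroup (Art M)} (h : ∀ g ∈ H, g • v = v) : Hc H := by
  obtain ⟨g, hg⟩ := exists_vt v
  obtain ⟨n, ρ, hρ⟩ := ha.lin _ v.2.1
  have m : ∀ x : H, ((MulAut.conj g⁻¹).toMonoidHom.comp H.subtype) x ∈ Pb M v.1.1 := fun x => by
    have := h x x.2
    rw [hg, fix_vt] at this
    simpa using this
  have i : Function.Injective (((MulAut.conj g⁻¹).toMonoidHom.comp H.subtype).codRestrict _ m) :=
    fun x y e => Subtype.ext ((MulAut.conj g⁻¹).injective (congrArg Subtype.val e))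
  refine Hc.lin H ℝ n (ρ.comp (MonoidHom.codRestrict _ _ m)) fun x hx =>
    mem_center_iff.2 fun y => i ?_
  rw [map_mul, map_mul]
  exact mem_center_iff.1 (hρ hx) _

theorem tf_vx (ha : Alg M) {v : Vx M} {g : Art M} (h : g • v = v) (o : IsOfFinOrder g) :
    g = 1 := by
  obtain ⟨c, hc⟩ := exists_vt v
  rw [hc, fix_vt] at h
  have e := ha.tf _ v.2.1 _ h ((isConj_iff.2 ⟨c⁻¹, by rw [inv_inv]⟩ : IsConj g _).isOfFinOrder o)
  exact HtA_one e

/-- roots of conjugates of generators at neighbouring vertices -/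
theorem root_vx (ha : Alg M) {u : S} {r : Art M} (h : IsConj (gn M u) r) {k : ℤ} (hk : k ≠ 0)
    {v w : Vx M} (c : v ≤ w ∨ w ≤ v) (hv : r • v = v) (hw : r ^ k • w = w) : r • w = w := by
  rcases c with c | c
  · obtain ⟨g, hg⟩ := exists_vt v
    have e : w = vt w.2.1 g := vt_of_le (hg ▸ c)
    rw [hg, fix_vt] at hv
    rw [e, fix_vt]
    exact Pb_mono M (ty_mono c) hv
  obtain ⟨g, hg⟩ := exists_vt w
  have e : v = vt v.2.1 g := vt_of_le (hg ▸ c)
  by_cases c2 : v.1.1.card ≤ w.1.1.card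
  · rw [eq_of_ty c c2]
    exact hv
  have cj : IsConj (gn M u) (g⁻¹ * r * g) := h.trans (isConj_iff.2 ⟨g⁻¹, by rw [inv_inv]⟩)
  have pw : g⁻¹ * r ^ k * g = (g⁻¹ * r * g) ^ k := by
    simpa using (conj_zpow (i := k) (a := g⁻¹) (b := r)).symm
  rw [e, fix_vt] at hv
  rw [hg, fix_vt, pw] at hw
  rw [hg, fix_vt]
  have c1 : w.1.1.card ≤ 1 := by have := v.2.1.1; omega
  haveI : Nonempty S := ⟨u⟩
  rcases (Finset.card_le_one_iff_subset_singleton.1 c1 : ∃ s, _) with ⟨s, hs⟩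
  rcases Finset.subset_singleton_iff.1 hs with t | t
  · rw [t, Pb_empty, mem_bot] at hw
    have := HtA_len (len_conj cj) k
    rw [hw, map_one] at this
    exact absurd (Multiplicative.ofAdd.injective this).symm hk
  · rw [t, Pb_one] at hw ⊢
    rw [ha.root _ v.2.1 s (ty_mono c (by rw [t]; exact Finset.mem_singleton_self s)) _ hv u cj k hk
      hw]
    exact mem_zpowers _

theorem stab_low {v : Vx M} (h : v.1.1.card ≤ 1) : MulAction.stabilizer (Art M) v ∈ Pc M := by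
  obtain ⟨g, hg⟩ := exists_vt v
  have k : ∀ a, a ∈ MulAction.stabilizer (Art M) v ↔ g⁻¹ * a * g ∈ Pb M v.1.1 := fun a => by
    rw [MulAction.mem_stabilizer_iff, hg, fix_vt]
    rfl
  rcases v.1.1.eq_empty_or_nonempty with t | ⟨s, hs⟩
  · refine Or.inl (eq_bot_iff.2 fun a m => ?_)
    rw [k, t, Pb_empty, mem_bot] at m
    exact HtA_one m
  · have t : v.1.1 = {s} := Finset.eq_singleton_iff_unique_mem.2
      ⟨hs, fun x m => Finset.card_le_one.1 h x m s hs⟩
    refine Or.inr ⟨s, g * gn M s * g⁻¹, isConj_iff.2 ⟨g, rfl⟩, Subgroup.ext fun a => ?_⟩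
    rw [k, t, Pb_one, mem_zpowers_iff, mem_zpowers_iff]
    refine exists_congr fun i => ?_
    rw [conj_zpow]
    constructor
    · intro e
      rw [e]
      group
    · intro e
      rw [← e]
      group

end Pool.Agent.Work.MP_9d1ffa_al.Ar
end

-- merged part: Pool.Agent.Work.MP_9d1ffa_al.Ar.Fp
section
/-! Fixed points of isometries of CAT(0) spaces. -/

namespace Pool.Agent.Work.MP_9d1ffa_al.Ar

open Set Px

variable {X G : Type} [MetricSpace X] [Group G] [MulAction G X]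

/-- an isometry that fixes two points fixes the segment -/
theorem fix_jn (h : Cat0 X) (iso : ∀ (g : G) (x y : X), dist (g • x) (g • y) = dist x y) {g : G}
    {x y : X} (hx : g • x = x) (hy : g • y = y) {t : ℝ} (ht : t ∈ Icc (0 : ℝ) 1) :
    g • jn h x y t = jn h x y t := by
  refine jn_uniq h ht ?_ ?_
  · rw [← jn_left h x y ht]
    nth_rewrite 1 [← hx]
    exact (iso _ _ _).le
  · rw [← jn_right h x y ht]
    nth_rewrite 2 [← hy]
    exact (iso _ _ _).le

/-- a uniformly convex function has a minimum -/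
theorem Fp_min [CompleteSpace X] [Nonempty X] (f : X → ℝ) (hf : Continuous f)
    (h0 : ∀ x, 0 ≤ f x) (hc : ∀ x y, ∃ z, f z ≤ (f x + f y) / 2 - dist x y ^ 2 / 4) :
    ∃ x, ∀ y, f x ≤ f y := by
  have hb : BddBelow (range f) := ⟨0, by rintro _ ⟨x, rfl⟩; exact h0 x⟩
  have hm : ∀ x, iInf f ≤ f x := fun x => ciInf_le hb x
  have hu : ∀ k : ℕ, ∃ x, f x < iInf f + (1 / ((k : ℝ) + 1)) ^ 2 := fun k =>
    exists_lt_of_ciInf_lt (lt_add_of_pos_right _ (by positivity))
  choose u hu using hu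
  have t0 : Filter.Tendsto (fun k : ℕ => 1 / ((k : ℝ) + 1)) Filter.atTop (nhds 0) :=
    tendsto_one_div_add_atTop_nhds_zero_nat
  have cs : CauchySeq u := by
    refine cauchySeq_of_le_tendsto_0 (fun k : ℕ => 2 * (1 / ((k : ℝ) + 1))) ?_
      (by simpa using t0.const_mul 2)
    intro i j N hi hj
    obtain ⟨z, hz⟩ := hc (u i) (u j)
    have a : ∀ k : ℕ, N ≤ k → (1 / ((k : ℝ) + 1)) ^ 2 ≤ (1 / ((N : ℝ) + 1)) ^ 2 := fun k hk =>
      pow_le_pow_left₀ (by positivity) (Nat.one_div_le_one_div hk) 2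
    refine (abs_le_of_sq_le_sq' ?_ (by positivity)).2
    have := hm z
    have := hu i
    have := hu j
    have := a i hi
    have := a j hj
    rw [mul_pow]
    linarith
  obtain ⟨x, hx⟩ := cauchySeq_tendsto_of_complete cs
  refine ⟨x, fun y => le_trans ?_ (hm y)⟩
  have t1 : Filter.Tendsto (fun k : ℕ => iInf f + (1 / ((k : ℝ) + 1)) ^ 2) Filter.atTop
      (nhds (iInf f)) := by
    simpa using (t0.pow 2).const_add (iInf f)
  exact le_of_tendsto_of_tendsto' ((hf.tendsto x).comp hx) t1 fun k => (hu k).le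

/-- an isometry of finite order has a fixed point -/
theorem exists_fix [CompleteSpace X] [Nonempty X] (h : Cat0 X)
    (iso : ∀ (g : G) (x y : X), dist (g • x) (g • y) = dist x y) {g : G} (hg : IsOfFinOrder g) :
    ∃ x : X, g • x = x := by
  obtain ⟨o⟩ : Nonempty X := inferInstance
  obtain ⟨n, hn, hgn⟩ := hg.exists_pow_eq_one
  set f : X → ℝ := fun x => ∑ i ∈ Finset.range n, dist (g ^ i • o) x ^ 2 with hf
  have hc : ∀ x y, ∃ z, f z ≤ (f x + f y) / 2 - dist x y ^ 2 / 4 := by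
    intro x y
    have ht : (1 / 2 : ℝ) ∈ Icc (0 : ℝ) 1 := ⟨by norm_num, by norm_num⟩
    refine ⟨jn h x y (1 / 2), ?_⟩
    have a : f (jn h x y (1 / 2)) ≤ ∑ i ∈ Finset.range n,
        ((dist (g ^ i • o) x ^ 2 + dist (g ^ i • o) y ^ 2) / 2 - dist x y ^ 2 / 4) :=
      Finset.sum_le_sum fun i _ => by linarith [jn_cn h x y ht (g ^ i • o)]
    rw [Finset.sum_sub_distrib, ← Finset.sum_div, Finset.sum_add_distrib, Finset.sum_const,
      Finset.card_range, nsmul_eq_mul] at a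
    have n1 : (1 : ℝ) ≤ n := by exact_mod_cast hn
    have := mul_le_mul_of_nonneg_right n1 (show 0 ≤ dist x y ^ 2 / 4 by positivity)
    simp only [hf] at a ⊢
    linarith
  have inv : ∀ x, f (g • x) = f x := by
    intro x
    have a := Finset.sum_range_succ (fun i => dist (g ^ i • o) (g • x) ^ 2) n
    have b := Finset.sum_range_succ' (fun i => dist (g ^ i • o) (g • x) ^ 2) n
    have c : ∀ i : ℕ, dist (g ^ (i + 1) • o) (g • x) = dist (g ^ i • o) x := fun i => by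
      rw [pow_succ', mul_smul, iso]
    simp only [c] at b
    rw [hgn] at a
    rw [pow_zero] at b
    simp only [hf]
    linarith
  obtain ⟨x, hx⟩ := Fp_min f (by simp only [hf]; fun_prop)
    (fun x => Finset.sum_nonneg fun i _ => by positivity) hc
  obtain ⟨z, hz⟩ := hc (g • x) x
  have := hx z
  rw [inv] at hz
  refine ⟨x, dist_le_zero.1 ?_⟩
  nlinarith [dist_nonneg (x := g • x) (y := x)]

end Pool.Agent.Work.MP_9d1ffa_al.Ar
end

-- merged part: Pool.Agent.Work.MP_9d1ffa_al.Ar.HtB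
section
/-! The isotropy groups of the action on the coset complex. -/

namespace Pool.Agent.Work.MP_9d1ffa_al.Ar

open Set Px Subgroup

variable {S : Type} {M : CoxeterMatrix S}

variable {X : Type} [MetricSpace X] [MulAction (Art M) X] {co : X → Vx M → ℝ}

theorem HtB_mem {V : Type} {s : Finset V} {z : V → ℝ} (h : In s z) {v : V} (hv : 0 < z v) :
    v ∈ s := by_contra fun k => hv.ne' (h.2.1 v k)

theorem HtB_cmp (cx : Cx (Fc M) (qq M) 2 co) {x : X} {v w : Vx M} (hv : 0 < co x v)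
    (hw : 0 < co x w) : v ≤ w ∨ w ≤ v := by
  obtain ⟨s, hs, hx⟩ := cx.exF x
  by_cases e : v = w
  · exact Or.inl e.le
  · exact hs (Finset.mem_coe.2 (HtB_mem hx hv)) (Finset.mem_coe.2 (HtB_mem hx hw)) e

theorem HtB_big (cx : Cx (Fc M) (qq M) 2 co) (x : X) : ∃ v, 1 / 3 ≤ co x v := by
  obtain ⟨s, hs, hx⟩ := cx.exF x
  have ne : s.Nonempty := Finset.nonempty_iff_ne_empty.2 fun e => by
    have := hx.2.2
    rw [e, Finset.sum_empty] at this
    exact zero_ne_one this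
  have c : (s.card : ℝ) ≤ 3 := by exact_mod_cast cx.dim s hs
  obtain ⟨v, -, hv⟩ := Finset.exists_le_of_sum_le (f := fun _ => (1 / 3 : ℝ)) (g := co x) ne (by
    rw [hx.2.2, Finset.sum_const, nsmul_eq_mul]
    linarith)
  exact ⟨v, hv⟩

theorem fix_iff (cx : Cx (Fc M) (qq M) 2 co)
    (eqv : ∀ (g : Art M) x v, co (g • x) (g • v) = co x v) (g : Art M) (x : X) :
    g • x = x ↔ ∀ v, 0 < co x v → g • v = v := by
  refine ⟨fun e v hv => ?_, fun h => cx.inj (funext fun w => ?_)⟩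
  · have a : 0 < co x (g • v) := by
      have := eqv g x v
      rw [e] at this
      rwa [this]
    rcases HtB_cmp cx hv a with c | c
    · exact (eq_of_ty c le_rfl).symm
    · exact eq_of_ty c le_rfl
  · have a := eqv g x (g⁻¹ • w)
    rw [smul_inv_smul] at a
    rw [a]
    have n0 := (cx.exF x).choose_spec.2.1
    rcases (n0 w).eq_or_lt with c | c
    · rcases (n0 (g⁻¹ • w)).eq_or_lt with d | d
      · rw [← c, ← d]
      · have := h _ d
        rw [smul_inv_smul] at this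
        rw [← this]
    · rw [inv_smul_eq_iff.2 (h w c).symm]

theorem HtB_step (ha : Alg M) (cx : Cx (Fc M) (qq M) 2 co)
    (eqv : ∀ (g : Art M) x v, co (g • x) (g • v) = co x v) {u : S} {r : Art M}
    (h : IsConj (gn M u) r) {k : ℤ} (hk : k ≠ 0) {x y : X}
    (n : ∀ v, |co x v - co y v| < 1 / 3) (hx : r • x = x) (hy : r ^ k • y = y) : r • y = y := by
  obtain ⟨v, hv⟩ := HtB_big cx x
  have a : 0 < co y v := by linarith [(abs_lt.1 (n v)).2]
  exact (fix_iff cx eqv r y).2 fun w hw => root_vx ha h hk (HtB_cmp cx a hw)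
    ((fix_iff cx eqv r x).1 hx v (by linarith)) ((fix_iff cx eqv _ y).1 hy w hw)

theorem root_pt (ha : Alg M) (cx : Cx (Fc M) (qq M) 2 co)
    (iso : ∀ (g : Art M) (x y : X), dist (g • x) (g • y) = dist x y)
    (eqv : ∀ (g : Art M) x v, co (g • x) (g • v) = co x v) {u : S} {r : Art M}
    (h : IsConj (gn M u) r) {k : ℤ} (hk : k ≠ 0) {x y : X} (hx : r • x = x)
    (hy : r ^ k • y = y) : r • y = y := by
  obtain ⟨L, -, hL⟩ := cx.lip
  obtain ⟨N, hN⟩ := exists_nat_gt (3 * (L * dist x y))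
  have w : (0 : ℝ) < N := lt_of_le_of_lt (by positivity) hN
  have hx' : r ^ k • x = x := zpow_mem (K := MulAction.stabilizer (Art M) x) hx k
  have key : ∀ i ≤ N, r • jn cx.cat x y (i / N) = jn cx.cat x y (i / N) := by
    intro i
    induction i with
    | zero => intro _; simpa [jn_zero] using hx
    | succ i ih =>
      intro hi
      have hi' : i ≤ N := by omega
      refine HtB_step ha cx eqv h hk (fun v => (hL _ _ v).trans_lt ?_) (ih hi')
        (fix_jn cx.cat iso hx' hy (frac_mem hi))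
      have e : (i : ℝ) / N - ((i + 1 : ℕ) : ℝ) / N = -(1 / N) := by
        push_cast
        ring
      rw [jn_tim cx.cat x y (frac_mem hi') (frac_mem hi), e, abs_neg, abs_of_pos (by positivity),
        mul_left_comm, one_div_mul_eq_div, div_lt_iff₀ w]
      linarith
  simpa [div_self w.ne', jn_one] using key N le_rfl

theorem HtB_two (cx : Cx (Fc M) (qq M) 2 co) {z : X} (h : ∀ v, co z v ≠ 1) :
    ∃ u, 0 < co z u ∧ u.1.1.card ≤ 1 := by
  obtain ⟨v, hv⟩ := HtB_big cx z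
  have pv : 0 < co z v := by linarith
  obtain ⟨s, -, hz⟩ := cx.exF z
  have : ∃ w, w ≠ v ∧ 0 < co z w := by
    by_contra c
    push Not at c
    refine h v ?_
    rw [← hz.2.2]
    exact (Finset.sum_eq_single_of_mem v (HtB_mem hz pv)
      fun w _ e => le_antisymm (c w e) (hz.1 w)).symm
  obtain ⟨w, ne, pw⟩ := this
  rcases HtB_cmp cx pv pw with c | c
  · have := card_lt (c.lt_of_ne ne.symm)
    have := w.2.1.1
    exact ⟨v, pv, by omega⟩
  · have := card_lt (c.lt_of_ne ne)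
    have := v.2.1.1
    exact ⟨w, pw, by omega⟩

theorem HtB_vx (cx : Cx (Fc M) (qq M) 2 co) (v : Vx M) : ∃ p, co p v = 1 := by
  classical
  have a : In {v} fun u => if u = v then (1 : ℝ) else 0 :=
    ⟨fun u => by positivity, fun u hu => if_neg fun e : u = v => hu (by simp [e]), by simp⟩
  obtain ⟨p, hp⟩ := cx.exX (s := {v}) (by simp [Fc]) a
  exact ⟨p, by simp [hp]⟩

theorem HtB_off (cx : Cx (Fc M) (qq M) 2 co) {x y : X} (d : 1 ≤ dist x y) :
    ∃ t ∈ Icc (0 : ℝ) 1, ∀ v, co (jn cx.cat x y t) v ≠ 1 := by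
  obtain ⟨L, L0, hL⟩ := cx.lip
  have l1 : (1 : ℝ) ≤ L := by exact_mod_cast L0
  by_cases e : ∀ v, co x v ≠ 1
  · exact ⟨0, ⟨le_rfl, zero_le_one⟩, by rwa [jn_zero]⟩
  push Not at e
  obtain ⟨v, hv⟩ := e
  have p : 1 ≤ 2 * (L * dist x y) := by nlinarith
  have ht : 1 / (2 * (L * dist x y)) ∈ Icc (0 : ℝ) 1 :=
    ⟨by positivity, div_le_one_of_le₀ p (by positivity)⟩
  refine ⟨_, ht, fun w hw => ?_⟩
  have a := jn_left cx.cat x y ht
  by_cases c : v = w
  · subst c
    rw [← cx.vx_eq hv hw, dist_self] at a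
    exact a.not_lt (by positivity)
  · have b := hL x (jn cx.cat x y (1 / (2 * (L * dist x y)))) v
    have f : L * (1 / (2 * (L * dist x y)) * dist x y) = 1 / 2 := by field_simp
    rw [a, f, hv, (cx.exF _).choose_spec.2.vx hw c] at b
    norm_num at b

theorem pc_far (ha : Alg M) (cx : Cx (Fc M) (qq M) 2 co)
    (iso : ∀ (g : Art M) (x y : X), dist (g • x) (g • y) = dist x y)
    (eqv : ∀ (g : Art M) x v, co (g • x) (g • v) = co x v) :
    ∀ T : Set X, ∀ x ∈ T, ∀ y ∈ T, ((1 : ℕ) : ℝ) ≤ dist x y → fixingSubgroup (Art M) T ∈ Pc M := by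
  intro T x hx y hy d
  obtain ⟨t, ht, hz⟩ := HtB_off cx (by simpa using d : 1 ≤ dist x y)
  obtain ⟨u, pu, cu⟩ := HtB_two cx hz
  have le : fixingSubgroup (Art M) T ≤ MulAction.stabilizer (Art M) u := fun g hg =>
    (fix_iff cx eqv g _).1 (fix_jn cx.cat iso ((mem_fixingSubgroup_iff _).1 hg x hx)
      ((mem_fixingSubgroup_iff _).1 hg y hy) ht) u pu
  by_cases b : fixingSubgroup (Art M) T = ⊥
  · exact Or.inl b
  rcases stab_low cu with e | ⟨s, r, hr, e⟩
  · exact absurd (eq_bot_iff.2 (e ▸ le)) b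
  refine Or.inr ⟨s, r, hr, le_antisymm (e ▸ le) (zpowers_le_of_mem ?_)⟩
  obtain ⟨⟨g, hg⟩, g1⟩ := ne_bot_iff_exists_ne_one.1 b
  obtain ⟨k, rfl⟩ := mem_zpowers_iff.1 (e ▸ le hg)
  have hk : k ≠ 0 := fun c => g1 (Subtype.ext (by simp [c]))
  obtain ⟨p, hp⟩ := HtB_vx cx u
  have m : r ∈ MulAction.stabilizer (Art M) u := e ▸ mem_zpowers r
  exact (mem_fixingSubgroup_iff _).2 fun a h => root_pt ha cx iso eqv hr hk
    ((cx.vx_fix eqv hp r).2 m) ((mem_fixingSubgroup_iff _).1 hg a h)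

theorem exists_pos (cx : Cx (Fc M) (qq M) 2 co) (x : X) : ∃ v, 0 < co x v := by
  exact (HtB_big cx x).imp fun v hv => by linarith

theorem hc_art [Nonempty X] (ha : Alg M) (cx : Cx (Fc M) (qq M) 2 co)
    (iso : ∀ (g : Art M) (x y : X), dist (g • x) (g • y) = dist x y)
    (eqv : ∀ (g : Art M) x v, co (g • x) (g • v) = co x v) : Hc (Art M) :=
  .cat _ _ X _ _ 2 co cx iso eqv (Pc M) 1 2 (pc_far ha cx iso eqv) pc_ht
    (fun x => (exists_pos cx x).elim fun v hv =>
      hc_vx ha v fun g hg => (fix_iff cx eqv g x).1 hg v hv) pc_ln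

theorem tf_art [Nonempty X] [CompleteSpace X] (ha : Alg M) (cx : Cx (Fc M) (qq M) 2 co)
    (iso : ∀ (g : Art M) (x y : X), dist (g • x) (g • y) = dist x y)
    (eqv : ∀ (g : Art M) x v, co (g • x) (g • v) = co x v) (g : Art M) (o : IsOfFinOrder g) :
    g = 1 := by
  obtain ⟨x, hx⟩ := exists_fix cx.cat iso o
  obtain ⟨v, hv⟩ := exists_pos cx x
  exact tf_vx ha ((fix_iff cx eqv g x).1 hx v hv) o

end Pool.Agent.Work.MP_9d1ffa_al.Ar
end

-- merged part: Pool.Agent.Work.MP_9d1ffa_al.Ar.Top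
section
/-! Two-dimensional Artin groups act on CAT(0) complexes with finite height. -/

namespace Pool.Agent.Work.MP_9d1ffa_al.Ar

open Set Px

/-- the link condition in dimension two -/
theorem cat_of_link {V X : Type} [MetricSpace X] {F : Set (Finset V)} {q : V → V → ℝ}
    {co : X → V → ℝ} (h : Cx0 F q 2 co) (qs : ∀ u v, q u v = q v u) (qd : ∀ u, q u u = 0)
    (hl : LinkOK F q) (hF : Triv (Fs F) (Fs F)) : Cat0 X := by
  obtain ⟨r, r0, hr⟩ := Lc_loc h qs qd hl
  have loc : Loc X r := fun x y e => hr x x y (by simpa using r0.le) (by rwa [dist_comm])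
  obtain ⟨δ, d0, d1, d2⟩ := triv_geo h hF (ε := r / 9) (by positivity)
  have := h.complete
  refine cartan loc (by linarith) d0 d1 (sc_of_triv d0.le d1 d2) fun x y η ε a b => ?_
  obtain ⟨N, p, p0, p1, p2, p3⟩ := h.path x y a b
  exact ⟨N, p, ⟨p0, p1, p2⟩, p3⟩

variable {S : Type} [Finite S] {M : CoxeterMatrix S}

theorem art_main (hd : Dim2 M) : Hc (Art M) ∧ ∀ g : Art M, IsOfFinOrder g → g = 1 := by
  obtain ⟨_, _, h, eqv, iso⟩ := exists_cx0_act (G := Art M) fc_dim fc_shp fc_pos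
    (fun u v _ _ => fc_conn u v) (fun g _ => fc_smul g) qq_smul
  have cx := h.cx (cat_of_link h qq_symm qq_self (LinkOK.of_seq (link_seq hd)) (triv_art M))
  have := h.complete
  obtain ⟨x, -⟩ := h.exX (s := {vt (sph_empty M) 1}) (by simp [Fc])
    (z := fun v => open Classical in if v = vt (sph_empty M) 1 then 1 else 0)
    ⟨fun v => by positivity, fun v hv => if_neg (by simpa using hv), by simp⟩
  have : Nonempty (Pt (Fc M)) := ⟨x⟩
  exact ⟨hc_art (alg M) cx iso eqv, tf_art (alg M) cx iso eqv⟩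

end Pool.Agent.Work.MP_9d1ffa_al.Ar
end

-- merged part: Pool.Agent.Work.MP_9d1ffa_al.Gd.Tpd
section
/-! Induction over the hierarchies that start from linear groups and Artin groups. -/

namespace Pool.Agent.Work.MP_9d1ffa_al.Gd

open Subgroup MulAction Function Cu

variable {W : (G : Type) → [Group G] → Prop} {S : Type} [Group S]

theorem pv_hd (hW : WG W) (h : Hd S) : PV W S := by
  induction h with
  | lin G R n ρ h => exact hW.pv (.lin G R n ρ h)
  | art G S M h φ hφ => exact pv_inj (pv_hc hW (Ar.art_main (M := M) h).1) φ hφ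
  | fin G H hH _ ih => exact pv_fin hW hH ih
  | loc G _ ih =>
    intro L _ tf U hU φ hφ
    refine hW.loc L fun T => ?_
    let K := closure (T : Set L)
    have : Group.FG K := (Group.fg_iff_subgroup_fg K).2 ⟨T, rfl⟩
    have : (U.subgroupOf K).FiniteIndex := inferInstance
    let ι : U.subgroupOf K →* U := K.subtype.subgroupComap U
    exact (ih (φ.comp ι).range ((Group.fg_iff_subgroup_fg _).1 inferInstance)).app tf hU (C := K)
      (by rw [relIndex_self]; exact one_ne_zero) hφ fun g _ a => ⟨⟨⟨g.1, a⟩, g.2⟩, rfl⟩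
  | cat G V X F q n co cx iso eqv P D m far ht _ _ st ln =>
    obtain ⟨A, -, hA⟩ := cx_gd cx iso eqv (R := D) (m := m) (Good := fun H => PV W H)
      (fun T hT _ ⟨x, hx, y, hy, d⟩ => ht_of_chain ht T hT fun i =>
        far _ x (hT i.zero_le hx) y (hT i.zero_le hy) d) pv_mono (pv_fi hW) (fun p _ => st p)
      fun T _ ⟨x, hx, y, hy, d⟩ a ha => ln _ (far T x hx y hy d) a (norm_fix ha)
    exact hW.geo A (Px.jn_bi cx.cat) hA fun _ h => h

theorem w_hd (hW : WG W) (h : Hd S) (tf : ∀ g : S, IsOfFinOrder g → g = 1) : W S :=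
  pv_hd hW h S tf ⊤ inferInstance (Subgroup.subtype _) (subtype_injective _)

end Pool.Agent.Work.MP_9d1ffa_al.Gd
end
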